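import Pool.Agent.Lib_helper74.CKF.Defs

/-!
# Exponential time classes, for the machine model of `CKF.Defs`
-/

set_option autoImplicit false

namespace Pool.Agent.CK

/-- `L ∈ E^O`: `L` is decided with oracle `O` in time `2 ^ (k (|x| + 1))`. -/
def InE (O L : Lang) : Prop :=
  ∃ (c : Cmd) (k : ℕ), ∀ x : List Bool, Halts O c x [] (2 ^ (k * (x.length + 1))) ∧
    (Accepts O c x [] (2 ^ (k * (x.length + 1))) ↔ L x = true)

/-- `L ∈ E^(NP^O)`: `L` is decided in time `2 ^ (k (|x| + 1))` by a deterministic machine with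
oracle `O ⊕ B`, for some `B ∈ NP^O`. -/
def InENP (O L : Lang) : Prop :=
  ∃ B : Lang, InNP O B ∧ InE (join O B) L

/-- `L` is decided with oracle `O` in time `O(2 ^ (2 ^ (ε |x|)))`. -/
def InDTIMEdouble (O : Lang) (ε : ℝ) (L : Lang) : Prop :=
  ∃ (c : Cmd) (a : ℕ), ∀ x : List Bool, ∃ t : ℕ,
    (t : ℝ) ≤ a * (2 : ℝ) ^ ((2 : ℝ) ^ (ε * x.length)) ∧ Halts O c x [] t ∧
      (Accepts O c x [] t ↔ L x = true)

/-- `C` is complete for `NP^O` under honest many-one reductions: `|x| ≤ (|f x| + 2) ^ j`. -/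
def HonestlyComplete (O C : Lang) : Prop :=
  InNP O C ∧ ∀ A, InNP O A → ∃ f : List Bool → List Bool, InFP O f ∧
    (∃ j : ℕ, ∀ x, x.length ≤ ((f x).length + 2) ^ j) ∧ ∀ x, A x = C (f x)

end Pool.Agent.CK
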