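import Pool.Agent.Lib_helper74.NE.Comp

/-! The Turing-complete language `CL`. -/

set_option autoImplicit false
set_option linter.unusedSectionVars false

namespace Pool.Agent.CKP

open Pool.Agent.CK

variable {O : Lang}
variable {α β γ δ : Type} [ToD α] [ToD β] [ToD γ] [ToD δ]

/-! ### reading an instance -/

/-- type of an instance -/
def typ (w : List Bool) : Bool := toBool (dec w).car
/-- type 1: colour -/
def colr (w : List Bool) : List D := toList (dec w).cdr.car
/-- type 1: threshold -/
def thr (w : List Bool) : ℕ := ofBits (toBits (dec w).cdr.cdr)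
/-- type 2: instance of the universal language -/
def xx (w : List Bool) : List Bool := toBits (dec w).cdr.car
/-- type 2: the list of witnesses -/
def wss (w : List Bool) : List (Bool × ℕ) :=
  (toList (dec w).cdr.cdr).map fun e => (toBool e.car, ofBits (toBits e.cdr))

/-- entry `i` of a list of witnesses -/
def ent (ws : List (Bool × ℕ)) (i : ℕ) : Bool × ℕ := ws.getD i (false, 0)

/-- all given witnesses are correct -/
def checkW (W : ℕ → ℕ → Bool) (ws : List (Bool × ℕ)) : Bool :=
  (rangeU (ulen ws)).all fun u => !(ent ws u.length).1 || W u.length (ent ws u.length).2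

/-- `v` is a witness smaller than the given one (or no witness is given) for some number -/
def guardW (W : ℕ → ℕ → Bool) (ws : List (Bool × ℕ)) (v : ℕ) : Bool :=
  (rangeU (ulen ws)).any fun u =>
    (!(ent ws u.length).1 || decide (v < (ent ws u.length).2)) && W u.length v

/-- validity of an instance of type 2 -/
def valid (W : ℕ → ℕ → Bool) (r k : ℕ) (w : List Bool) : Bool :=
  (decide ((xx w).length ^ r ≤ (wss w).length) &&
    decide (w.length ≤ ((wss w).length + 2) ^ k)) && checkW W (wss w)

theorem checkW_iff {W : ℕ → ℕ → Bool} {ws : List (Bool × ℕ)} :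
    checkW W ws = true ↔ ∀ i < ws.length, (ent ws i).1 = true → W i (ent ws i).2 = true := by
  unfold checkW
  rw [ulen_eq, rangeU_replicate, List.all_map, List.all_eq_true]
  simp only [List.mem_range, Function.comp_apply, List.length_replicate, Bool.or_eq_true,
    Bool.not_eq_true']
  refine forall_congr' fun i => imp_congr_right fun _ => ?_
  cases (ent ws i).1 <;> simp

theorem guardW_iff {W : ℕ → ℕ → Bool} {ws : List (Bool × ℕ)} {v : ℕ} :
    guardW W ws v = true ↔ ∃ i < ws.length, ((ent ws i).1 = false ∨ v < (ent ws i).2) ∧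
      W i v = true := by
  unfold guardW
  rw [ulen_eq, rangeU_replicate, List.any_map, List.any_eq_true]
  simp only [List.mem_range, Function.comp_apply, List.length_replicate, Bool.and_eq_true,
    Bool.or_eq_true, Bool.not_eq_true', decide_eq_true_eq]

/-- membership of an instance of type 1 or 2 -/
def CLP (O : Lang) (W : ℕ → ℕ → Bool) (r k : ℕ) (w : List Bool) : Prop :=
  (typ w = false ∧ ∃ v < thr w, W (colr w).length v = true) ∨
  (typ w = true ∧ valid W r k w = true ∧
    (UK O (xx w) = true ∨ ∃ v, guardW W (wss w) v = true))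

open Classical in
/-- The Turing-complete language. -/
noncomputable def CL (O : Lang) (W : ℕ → ℕ → Bool) (r k : ℕ) : Lang :=
  fun w => decide (CLP O W r k w)

theorem CL_iff {W : ℕ → ℕ → Bool} {r k : ℕ} {w : List Bool} :
    CL O W r k w = true ↔ CLP O W r k w := by
  simp only [CL, decide_eq_true_eq]

/-- A verifier of the search problem on unary inputs, with witnesses below `2 ^ ℓ m`. -/
structure Ver (O : Lang) (W : ℕ → ℕ → Bool) (ℓ : ℕ → ℕ) : Prop where
  hW : PTime O (fun p : List Unit × ℕ => W p.1.length p.2)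
  hl : UPoly O ℓ
  hb : ∀ m v, W m v = true → v < 2 ^ ℓ m

/-! ### polynomial time of the readings -/

theorem PTime.typ {x : γ → List Bool} (hx : PTime O x) : PTime O (fun a => CKP.typ (x a)) :=
  hx.dec.car.toBool
theorem PTime.colr {x : γ → List Bool} (hx : PTime O x) : PTime O (fun a => CKP.colr (x a)) :=
  hx.dec.cdr.car.toList
theorem PTime.thr {x : γ → List Bool} (hx : PTime O x) : PTime O (fun a => CKP.thr (x a)) :=
  hx.dec.cdr.cdr.toBits.ofBits
theorem PTime.xx {x : γ → List Bool} (hx : PTime O x) : PTime O (fun a => CKP.xx (x a)) :=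
  hx.dec.cdr.car.toBits
theorem PTime.wss {x : γ → List Bool} (hx : PTime O x) : PTime O (fun a => CKP.wss (x a)) :=
  PTime.map (f := fun (_ : γ) (e : D) => (CKP.toBool (D.car e), CKP.ofBits (CKP.toBits (D.cdr e))))
    hx.dec.cdr.cdr.toList
    ((PTime.id.snd.car.toBool).pair (PTime.id.snd.cdr.toBits.ofBits))
theorem PTime.ent {ws : γ → List (Bool × ℕ)} {u : γ → List α} (hws : PTime O ws)
    (hu : PTime O u) : PTime O (fun a => CKP.ent (ws a) (u a).length) :=
  PTime.getD hu hws (PTime.const (false, 0))

theorem Ver.ptime {W : ℕ → ℕ → Bool} {ℓ : ℕ → ℕ} (h : Ver O W ℓ) {u : γ → List α} {v : γ → ℕ}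
    (hu : PTime O u) (hv : PTime O v) : PTime O (fun a => W (u a).length (v a)) :=
  (h.hW.comp ((PTime.ulen hu).pair hv)).of_eq fun a => by
    show W (ulen (u a)).length (v a) = _
    rw [ulen_eq, List.length_replicate]

theorem PTime.checkW {W : ℕ → ℕ → Bool} {ℓ : ℕ → ℕ} (h : Ver O W ℓ) {ws : γ → List (Bool × ℕ)}
    (hws : PTime O ws) : PTime O (fun a => CKP.checkW W (ws a)) := by
  unfold CKP.checkW
  refine PTime.all (f := fun a u => !(CKP.ent (ws a) u.length).1 ||
    W u.length (CKP.ent (ws a) u.length).2) (PTime.rangeU hws.ulen) ?_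
  have h1 : PTime O (fun p : γ × List Unit => CKP.ent (ws p.1) p.2.length) :=
    PTime.ent (hws.comp PTime.id.fst) PTime.id.snd
  exact (h1.fst.not).or (h.ptime PTime.id.snd h1.snd)

theorem PTime.guardW {W : ℕ → ℕ → Bool} {ℓ : ℕ → ℕ} (h : Ver O W ℓ) {ws : γ → List (Bool × ℕ)}
    {v : γ → ℕ} (hws : PTime O ws) (hv : PTime O v) :
    PTime O (fun a => CKP.guardW W (ws a) (v a)) := by
  unfold CKP.guardW
  refine PTime.any (f := fun a u => (!(CKP.ent (ws a) u.length).1 ||
    decide (v a < (CKP.ent (ws a) u.length).2)) && W u.length (v a)) (PTime.rangeU hws.ulen) ?_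
  have h1 : PTime O (fun p : γ × List Unit => CKP.ent (ws p.1) p.2.length) :=
    PTime.ent (hws.comp PTime.id.fst) PTime.id.snd
  have h2 : PTime O (fun p : γ × List Unit => v p.1) := hv.comp PTime.id.fst
  exact ((h1.fst.not).or (PTime.nat_lt h2 h1.snd)).and (h.ptime PTime.id.snd h2)

theorem PTime.npow {l : γ → List α} (hl : PTime O l) (g : ℕ → ℕ) (hg : UPoly O g) :
    PTime O (fun a => g (l a).length) :=
  (PTime.length (hg.comp hl)).of_eq fun a => List.length_replicate ..

theorem PTime.valid {W : ℕ → ℕ → Bool} {ℓ : ℕ → ℕ} (h : Ver O W ℓ) (r k : ℕ)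
    {x : γ → List Bool} (hx : PTime O x) : PTime O (fun a => CKP.valid W r k (x a)) := by
  unfold CKP.valid
  exact ((PTime.nat_le (PTime.npow hx.xx (fun n => n ^ r) ((UPoly.id).pow r))
    hx.wss.length).and (PTime.nat_le hx.length
      (PTime.npow hx.wss (fun n => (n + 2) ^ k) (UPoly.tb k)))).and (PTime.checkW h hx.wss)

/-! ### sizes -/

theorem size_car_le (d : D) : d.car.size ≤ d.size := by
  cases d with
  | nil => exact le_rfl
  | cons a b => show a.size ≤ a.size + b.size + 1; omega

theorem size_cdr_le (d : D) : d.cdr.size ≤ d.size := by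
  cases d with
  | nil => exact le_rfl
  | cons a b => show b.size ≤ a.size + b.size + 1; omega

theorem length_toList_le (d : D) : (toList d).length ≤ d.size := by
  have h1 : sz (toList d) = d.size := congrArg D.size (toD_toList d)
  have h2 := length_le_sz (toList d)
  omega

theorem colr_le (w : List Bool) : (colr w).length ≤ 3 * w.length + 1 :=
  ((length_toList_le _).trans ((size_car_le _).trans (size_cdr_le _))).trans (size_dec_le w)

theorem wss_le (w : List Bool) : (wss w).length ≤ 3 * w.length + 1 := by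
  unfold wss
  rw [List.length_map]
  exact ((length_toList_le _).trans ((size_cdr_le _).trans (size_cdr_le _))).trans (size_dec_le w)

theorem xx_le (w : List Bool) : (xx w).length ≤ 3 * w.length + 1 := by
  unfold xx toBits
  rw [List.length_map]
  exact ((length_toList_le _).trans ((size_car_le _).trans (size_cdr_le _))).trans (size_dec_le w)

/-! ### `CL` is in `NP^O` -/

/-- verifier of `CL` -/
def VC (O : Lang) (W : ℕ → ℕ → Bool) (r k : ℕ) (p : List Bool × List Bool) : Bool :=
  if typ p.1 = true then
    valid W r k p.1 && (VU O (xx p.1, p.2) || guardW W (wss p.1) (ofBits p.2))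
  else decide (ofBits p.2 < thr p.1) && W (colr p.1).length (ofBits p.2)

theorem bits_length_le {v n : ℕ} (h : v < 2 ^ n) : v.bits.length ≤ n := by
  rw [Nat.size_eq_bits_len]
  exact Nat.size_le.mpr h

theorem CL_inNP {W : ℕ → ℕ → Bool} {ℓ : ℕ → ℕ} (h : Ver O W ℓ) (r k : ℕ) :
    InNP O (CL O W r k) := by
  obtain ⟨P, hP⟩ := h.hl.bound
  have hVC : PTime O (VC O W r k) := by
    unfold VC
    refine PTime.ite (PTime.typ PTime.id.fst) ?_ ?_
    · exact (PTime.valid h r k PTime.id.fst).and ((PTime.VU (PTime.xx PTime.id.fst)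
        PTime.id.snd).or (PTime.guardW h (PTime.wss PTime.id.fst) (PTime.ofBits PTime.id.snd)))
    · exact (PTime.nat_lt (PTime.ofBits PTime.id.snd) (PTime.thr PTime.id.fst)).and
        (h.ptime (PTime.colr PTime.id.fst) (PTime.ofBits PTime.id.snd))
  have hlen : ∀ (w : List Bool) (i v : ℕ), i ≤ 3 * w.length + 1 → W i v = true →
      v.bits.length ≤ (3 * w.length + 1) + P.eval (3 * w.length + 1) := by
    intro w i v hi hv
    have h1 := bits_length_le (h.hb i v hv)
    have h2 := (hP i).trans (poly_mono P hi)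
    omega
  refine inNP_of (V := VC O W r k) hVC
    (B := fun n => (3 * n + 1) + P.eval (3 * n + 1)) ?_ ?_ ?_
  · have := UPoly.poly (O := O) ((3 * Polynomial.X + 1) + P.comp (3 * Polynomial.X + 1))
    simpa [Polynomial.eval_comp] using this
  · intro w hw
    rw [CL_iff] at hw
    rcases hw with ⟨ht, v, hv, hWv⟩ | ⟨ht, hval, hx | ⟨v, hv⟩⟩
    · refine ⟨v.bits, hlen w _ v (colr_le w) hWv, ?_⟩
      unfold VC
      rw [if_neg (by simp [ht])]
      simp [hv, hWv]
    · obtain ⟨y, hy, hVy⟩ := (UK_iff _).mp hx
      refine ⟨y, ?_, ?_⟩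
      · have := xx_le w; omega
      · unfold VC
        rw [if_pos ht]
        simp [hval, hVy]
    · obtain ⟨i, hi, _, hWv⟩ := guardW_iff.mp hv
      refine ⟨v.bits, hlen w i v (hi.le.trans (wss_le w)) hWv, ?_⟩
      unfold VC
      rw [if_pos ht]
      simp [hval, hv]
  · intro w y hy
    rw [CL_iff]
    unfold VC at hy
    simp only at hy
    by_cases ht : typ w = true
    · rw [if_pos ht, Bool.and_eq_true, Bool.or_eq_true] at hy
      refine Or.inr ⟨ht, hy.1, ?_⟩
      rcases hy.2 with h1 | h1
      · exact Or.inl (UK_of_VU h1)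
      · exact Or.inr ⟨_, h1⟩
    · rw [if_neg ht, Bool.and_eq_true, decide_eq_true_eq] at hy
      exact Or.inl ⟨by simpa using ht, _, hy.1, hy.2⟩

end Pool.Agent.CKP
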