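import Pool.Agent.Lib_helper74.NF.ENPA

/-! `E^(NP^O)`: the two theorems. -/

set_option autoImplicit false
set_option linter.unusedSectionVars false

namespace Pool.Agent.CKP

open Pool.Agent.CK

variable {O : Lang}
variable {α β γ δ : Type} [ToD α] [ToD β] [ToD γ] [ToD δ]

theorem sz_getD_le (S : List (List Bool)) (n : ℕ) : sz (S.getD n []) ≤ sz S := by
  induction S generalizing n with
  | nil => simp
  | cons a t ih =>
    cases n with
    | zero => rw [List.getD_cons_zero, sz_cons]; omega
    | succ n => rw [List.getD_cons_succ, sz_cons]; have := ih n; omega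

theorem sz_cq_le (q : List D × List (List Bool)) : sz (cq q) ≤ sz q.2 := by
  obtain ⟨K, S⟩ := q
  cases K with
  | nil => have h := sz_pos S; show 1 ≤ sz S; omega
  | cons c K => exact sz_getD_le S (regU c).length

/-- Output of the run described by a transcript. -/
def ansT (O : Lang) (c : Cmd) (x : ℕ → List Bool) (g : List Bool → List Bool) (b T : ℕ → ℕ)
    (m v : ℕ) : Bool :=
  (trun O g (List.replicate (b m) ()) (List.replicate (T m) ())
    (([cmdD c], [x m, []]), true, msb (List.replicate (b m * T m) ()) v)).1.1.isEmpty &&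
  ((trun O g (List.replicate (b m) ()) (List.replicate (T m) ())
    (([cmdD c], [x m, []]), true, msb (List.replicate (b m * T m) ()) v)).1.2.headD []).headD false

theorem PTime.ansT (c : Cmd) {x : ℕ → List Bool} {g : List Bool → List Bool} {b T : ℕ → ℕ}
    (hx : PTime O (fun u : List Unit => x u.length)) (hg : PTime O g) (hb : UPoly O b)
    (hT : UPoly O T) : PTime O (fun p : List Unit × ℕ => CKP.ansT O c x g b T p.1.length p.2) := by
  have hN : PTime O (fun p : List Unit × ℕ => List.replicate (b p.1.length * T p.1.length) ()) :=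
    (hb.mul hT).comp PTime.id.fst
  have h := PTime.trun hg (hb.comp PTime.id.fst) (PTime.const (cmdD c))
    (PTime.cons (hx.comp PTime.id.fst) (PTime.const [[]]))
    (hT.comp PTime.id.fst) (PTime.msb hN PTime.id.snd)
  exact (PTime.isNil h.fst.fst).and (PTime.headD (PTime.headD h.fst.snd (PTime.const []))
    (PTime.const false))

/-- the least transcript gives the result of the computation -/
theorem ansT_iff {B : Lang} {c : Cmd} {x : ℕ → List Bool} {g : List Bool → List Bool}
    {b T : ℕ → ℕ} {m : ℕ} {s : Bool × ℕ} (hg : ∀ w, B w = UK O (g w))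
    (hb : ∀ i < T m, (g (cq (runU (join O B) ([cmdD c], [x m, []])
      (List.replicate i ()))).tail).length + 2 ≤ b m) (hb1 : 1 ≤ b m)
    (hs : LeastSpec (WT O c x g b T) m s) :
    ansT O c x g b T m s.2 = true ↔ Accepts (join O B) c (x m) [] (T m) := by
  have h1 : s.1 = true := hs.1.mpr (WT_exists hb1)
  obtain ⟨h2, h3⟩ := hs.2 h1
  have h4 := least_trun hg hb hb1 h2 h3 (T m) le_rfl
  have h5 := accU_iff (O := join O B) c (x m) [] (List.replicate (T m) ())
  rw [List.length_replicate] at h5
  rw [← h5]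
  unfold ansT accU outU
  rw [h4]

/-- data of the computation -/
theorem enp_setup {B : Lang} (hB : InNP O B) (c : Cmd) (k : ℕ) :
    ∃ (g : List Bool → List Bool) (b : ℕ → ℕ), PTime O g ∧ UPoly O b ∧
      Ver O (WT O c str g b (fun m => (2 ^ ((str m).length + 1)) ^ k))
        (fun m => b m * (2 ^ ((str m).length + 1)) ^ k) ∧
      ∀ (m : ℕ) (s : Bool × ℕ),
        LeastSpec (WT O c str g b (fun m => (2 ^ ((str m).length + 1)) ^ k)) m s →
        (ansT O c str g b (fun m => (2 ^ ((str m).length + 1)) ^ k) m s.2 = true ↔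
          Accepts (join O B) c (str m) [] ((2 ^ ((str m).length + 1)) ^ k)) := by
  obtain ⟨g, hgP, hg⟩ := UK_hard hB
  obtain ⟨Pg, hPg⟩ := hgP.size_le
  have hT : UPoly O (fun m => (2 ^ ((str m).length + 1)) ^ k) := E1_upoly.pow k
  set bf : ℕ → ℕ := fun m => Pg.eval (4 * m + 10 +
    (2 ^ ((str m).length + 1)) ^ k * (2 * sz (cmdD c) + 8)) + 2 with hbf
  have hbU : UPoly O bf := by
    have h1 : UPoly O (fun m => 4 * m + 10 +
        (2 ^ ((str m).length + 1)) ^ k * (2 * sz (cmdD c) + 8)) :=
      (((UPoly.const 4).mul UPoly.id).add (UPoly.const 10)).add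
        (hT.mul (UPoly.const (2 * sz (cmdD c) + 8)))
    have h2 : UPoly O (fun m => Pg.eval (4 * m + 10 +
        (2 ^ ((str m).length + 1)) ^ k * (2 * sz (cmdD c) + 8))) := by
      unfold UPoly
      refine (PTime.comp (g := fun u : List Unit => List.replicate (Pg.eval u.length) ())
        (UPoly.poly Pg) h1).of_eq fun u => ?_
      rw [List.length_replicate]
    exact h2.add (UPoly.const 2)
  refine ⟨g, bf, hgP, hbU, WT_ver c str_ptime hgP hbU hT, fun m s hs => ?_⟩
  refine ansT_iff hg ?_ (by rw [hbf]; simp only; omega) hs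
  intro i hi
  have h1 := runU_bound (O := join O B) (sz (cmdD c)) (List.replicate i ())
    ([cmdD c], [str m, []]) (by
      intro d hd
      simp only [List.mem_singleton] at hd
      rw [hd])
  obtain ⟨_, _, h2⟩ := h1
  rw [List.length_replicate] at h2
  generalize runU (join O B) ([cmdD c], [str m, []]) (List.replicate i ()) = q at h2
  have h3 := sz_cq_le q
  have h4 := sz_tail_le (cq q)
  have h5 := hPg (cq q).tail
  have h6 := length_le_sz (g (cq q).tail)
  have h7 : sz [str m, []] = sz (str m) + (1 + 1 + 1) + 1 := rfl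
  have h8 : sz (str m) ≤ 4 * (str m).length + 1 := size_bits _
  have h9 : (str m).length ≤ m := by
    unfold str
    rw [List.length_dropLast, Nat.size_eq_bits_len]
    have : m.size ≤ m := Nat.size_le.mpr Nat.lt_two_pow_self
    omega
  have h10 : i * (2 * sz (cmdD c) + 8) ≤
      (2 ^ ((str m).length + 1)) ^ k * (2 * sz (cmdD c) + 8) :=
    Nat.mul_le_mul_right _ (le_of_lt hi)
  have h11 := poly_mono Pg (show sz (cq q).tail ≤ 4 * m + 10 +
    (2 ^ ((str m).length + 1)) ^ k * (2 * sz (cmdD c) + 8) by simp only at h2; omega)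
  rw [hbf]
  simp only
  omega

theorem hlen_aux (x : List Bool) : (() :: ulen x).length = x.length + 1 := by
  rw [ulen_eq, List.length_cons, List.length_replicate]

theorem hnum_aux (x : List Bool) : toNum (List.replicate (2 ^ (() :: ulen x).length) ()) x =
    List.replicate (num x) () := by
  refine toNum_eq _ _ ?_
  rw [List.length_replicate, hlen_aux]
  exact (num_lt x).le

theorem dec_sub {S : List Unit → List Unit → Bool × ℕ}
    (hS : PTime O (fun p : List Unit × List Unit => S p.1 p.2)) {F : List Unit → ℕ → Bool}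
    (hF : PTime O (fun p : List Unit × ℕ => F p.1 p.2)) {r : ℕ} (hr : 1 ≤ r) {ε : ℝ}
    (hrε : 1 / (r : ℝ) < ε) :
    ∃ (p : Cmd) (a : ℕ), ∀ x : List Bool, ∃ t : ℕ,
      (t : ℝ) ≤ a * (2 : ℝ) ^ ((2 : ℝ) ^ (ε * x.length)) ∧ Halts O p x [] t ∧
      (Accepts O p x [] t ↔ F (List.replicate (num x) ())
        (S (List.replicate (2 ^ rt r (num x)) ()) (List.replicate (num x) ())).2 = true) := by
  -- first stage: `2 ^ (|x| + 1)` in unary
  have he1 : PTime O (fun x : List Bool => () :: ulen x) :=
    PTime.cons (PTime.const ()) (PTime.ulen PTime.id)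
  have h1 := XT.exp he1
  -- second stage
  have hnum : PTime O (fun q : List Unit × List Bool => toNum q.1 q.2) :=
    PTime.toNum PTime.id.fst PTime.id.snd
  have he2 : PTime O (fun q : List Unit × List Bool =>
      List.replicate (rt r (toNum q.1 q.2).length) ()) := (rt_upoly r).comp hnum
  have h2 := XT.exp he2
  have h3 : PTime O (fun q : List Unit × (List Unit × List Bool) =>
      F (toNum q.2.1 q.2.2) (S q.1 (toNum q.2.1 q.2.2)).2) :=
    hF.comp ((hnum.comp PTime.id.snd).pair
      (hS.comp (PTime.id.fst.pair (hnum.comp PTime.id.snd))).snd)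
  have h4 := (XT.of_ptime h3 (fun _ => 0)).comp (h2.comp h1)
  have h5 : XT O (fun x : List Bool => F (List.replicate (num x) ())
      (S (List.replicate (2 ^ rt r (num x)) ()) (List.replicate (num x) ())).2)
      (fun x => 2 ^ (x.length + 1) + 2 ^ rt r (num x)) := by
    have h6 := h4.mono (g' := fun x : List Bool => 2 ^ (x.length + 1) + 2 ^ rt r (num x))
      (10 * Polynomial.X + 10) ?_
    · have h7 : (fun x : List Bool =>
          F (toNum (List.replicate (2 ^ (() :: ulen x).length) ()) x)
          (S (List.replicate (2 ^ (List.replicate (rt r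
          (toNum (List.replicate (2 ^ (() :: ulen x).length) ()) x).length) ()).length) ())
          (toNum (List.replicate (2 ^ (() :: ulen x).length) ()) x)).2) =
          fun x : List Bool => F (List.replicate (num x) ())
            (S (List.replicate (2 ^ rt r (num x)) ()) (List.replicate (num x) ())).2 := by
        funext x
        rw [hnum_aux, List.length_replicate, List.length_replicate]
      rw [← h7]
      exact h6
    · intro x
      simp only
      rw [hnum_aux, sz_pair, sz_pair, sz_pair, sz_units, sz_units]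
      simp only [List.length_replicate]
      rw [hlen_aux]
      simp only [Polynomial.eval_add, Polynomial.eval_mul, Polynomial.eval_ofNat,
        Polynomial.eval_X]
      omega
  obtain ⟨p, j, hp⟩ := XT.run_dec' h5
  obtain ⟨a, ha⟩ := growthB j (δ := 1 / (r : ℝ)) (ε := ε)
    (by have : (0 : ℝ) < r := by exact_mod_cast (by omega : 0 < r)
        positivity) hrε
  refine ⟨p, a, fun x => ?_⟩
  obtain ⟨t, ht, h6, h7⟩ := hp x
  refine ⟨t, ?_, h6, h7⟩
  refine le_trans ?_ (ha x.length (rt r (num x)) ?_)
  · exact_mod_cast ht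
  · refine (rt_le hr).trans ?_
    have h8 : ((num x : ℕ) : ℝ) ≤ (2 : ℝ) ^ (x.length + 1) := by
      exact_mod_cast (num_lt x).le
    have h9 : ((num x : ℕ) : ℝ) ^ (1 / (r : ℝ)) ≤ ((2 : ℝ) ^ (x.length + 1)) ^ (1 / (r : ℝ)) :=
      Real.rpow_le_rpow (by positivity) h8 (by positivity)
    linarith

theorem dec_honest {S : List Unit → Bool × ℕ} (hS : PTime O S) {F : List Unit → ℕ → Bool}
    (hF : PTime O (fun p : List Unit × ℕ => F p.1 p.2)) :
    ∃ (p : Cmd) (j : ℕ), ∀ x : List Bool, Halts O p x [] (2 ^ (j * (x.length + 1))) ∧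
      (Accepts O p x [] (2 ^ (j * (x.length + 1))) ↔
        F (List.replicate (num x) ()) (S (List.replicate (num x) ())).2 = true) := by
  have he1 : PTime O (fun x : List Bool => () :: ulen x) :=
    PTime.cons (PTime.const ()) (PTime.ulen PTime.id)
  have h1 := XT.exp he1
  have hnum : PTime O (fun q : List Unit × List Bool => toNum q.1 q.2) :=
    PTime.toNum PTime.id.fst PTime.id.snd
  have h3 : PTime O (fun q : List Unit × List Bool => F (toNum q.1 q.2) (S (toNum q.1 q.2)).2) :=
    hF.comp (hnum.pair (hS.comp hnum).snd)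
  have h4 := (XT.of_ptime h3 (fun _ => 0)).comp h1
  have h5 : XT O (fun x : List Bool => F (List.replicate (num x) ())
      (S (List.replicate (num x) ())).2) (fun x => 2 ^ (x.length + 1)) := by
    have h6 := h4.mono (g' := fun x : List Bool => 2 ^ (x.length + 1))
      (10 * Polynomial.X + 10) ?_
    · have h7 : (fun x : List Bool =>
          F (toNum (List.replicate (2 ^ (() :: ulen x).length) ()) x)
            (S (toNum (List.replicate (2 ^ (() :: ulen x).length) ()) x)).2) =
          fun x : List Bool => F (List.replicate (num x) ()) (S (List.replicate (num x) ())).2 := by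
        funext x
        rw [hnum_aux]
      rw [← h7]
      exact h6
    · intro x
      rw [sz_pair, sz_units, List.length_replicate, hlen_aux]
      simp only [Polynomial.eval_add, Polynomial.eval_mul, Polynomial.eval_ofNat,
        Polynomial.eval_X]
      omega
  obtain ⟨p, j, hp⟩ := XT.run_dec' h5
  refine ⟨p, 3 * j, fun x => ?_⟩
  obtain ⟨t, ht, h6, h7⟩ := hp x
  have hT : t ≤ 2 ^ (3 * j * (x.length + 1)) := by
    refine ht.trans ?_
    have h8 : x.length + 2 ^ (x.length + 1) + 2 ≤ 2 ^ (3 * (x.length + 1)) := by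
      have g1 : x.length + 1 ≤ 2 ^ x.length := Nat.lt_two_pow_self
      have g2 : 2 ^ (3 * (x.length + 1)) = 2 ^ x.length * (8 * 4 ^ x.length) := by
        rw [show 3 * (x.length + 1) = x.length + (3 + 2 * x.length) by ring, pow_add, pow_add,
          pow_mul]
        norm_num
      have g3 : 1 ≤ 4 ^ x.length := Nat.one_le_pow _ _ (by norm_num)
      rw [g2, pow_succ]
      nlinarith
    calc (x.length + 2 ^ (x.length + 1) + 2) ^ j ≤ (2 ^ (3 * (x.length + 1))) ^ j :=
          Nat.pow_le_pow_left h8 j
      _ = 2 ^ (3 * j * (x.length + 1)) := by rw [← pow_mul]; congr 1; ring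
  have hst := run_stable h6 hT
  have h9 : Accepts O p x [] (2 ^ (3 * j * (x.length + 1))) ↔ Accepts O p x [] t := by
    unfold Accepts
    rw [hst]
  refine ⟨?_, ?_⟩
  · unfold Halts at h6 ⊢
    rw [hst]
    exact h6
  · rw [h9, h7]

/-- `E^(NP^O)` in time `2 ^ (2 ^ (ε n))`. -/
theorem enp_sub (hneg : ∀ C, TuringComplete O C → ManyOneComplete O C) {ε : ℝ}
    (hε : 0 < ε) {B : Lang} (hB : InNP O B) (c : Cmd) (k : ℕ) :
    ∃ (p : Cmd) (a : ℕ), ∀ x : List Bool, ∃ t : ℕ,
      (t : ℝ) ≤ a * (2 : ℝ) ^ ((2 : ℝ) ^ (ε * x.length)) ∧ Halts O p x [] t ∧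
      (Accepts O p x [] t ↔ Accepts (join O B) c x [] (2 ^ (k * (x.length + 1)))) := by
  obtain ⟨r, hr, hrε⟩ := exists_r hε
  obtain ⟨g, b, hg, hb, hver, hans⟩ := enp_setup hB c k
  obtain ⟨S, hS, hspec⟩ := solver_sub hneg hver r hr
  obtain ⟨p, a, hp⟩ := dec_sub hS (F := fun u v =>
    ansT O c str g b (fun m => (2 ^ ((str m).length + 1)) ^ k) u.length v) (PTime.ansT c str_ptime hg hb (E1_upoly.pow k)) hr hrε
  refine ⟨p, a, fun x => ?_⟩
  obtain ⟨t, ht, h6, h7⟩ := hp x
  refine ⟨t, ht, h6, ?_⟩
  have g1 := hspec (num x) (List.replicate (2 ^ rt r (num x)) ())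
    (by rw [List.length_replicate])
  have h8 := hans (num x) _ g1
  rw [ne_exp, str_num] at h8
  rw [h7, ← h8, List.length_replicate]

/-- `E^(NP^O) = E^O`, from completeness under honest reductions. -/
theorem enp_honest (hneg : ∀ C, TuringComplete O C → HonestComplete O C) {B : Lang}
    (hB : InNP O B) (c : Cmd) (k : ℕ) :
    ∃ (p : Cmd) (j : ℕ), ∀ x : List Bool, Halts O p x [] (2 ^ (j * (x.length + 1))) ∧
      (Accepts O p x [] (2 ^ (j * (x.length + 1))) ↔
        Accepts (join O B) c x [] (2 ^ (k * (x.length + 1)))) := by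
  obtain ⟨g, b, hg, hb, hver, hans⟩ := enp_setup hB c k
  obtain ⟨S, hS, hspec⟩ := solver_honest hneg hver
  obtain ⟨p, j, hp⟩ := dec_honest hS (F := fun u v =>
    ansT O c str g b (fun m => (2 ^ ((str m).length + 1)) ^ k) u.length v) (PTime.ansT c str_ptime hg hb (E1_upoly.pow k))
  refine ⟨p, j, fun x => ⟨(hp x).1, ?_⟩⟩
  have h8 := hans (num x) _ (hspec (num x))
  rw [ne_exp, str_num] at h8
  rw [(hp x).2, ← h8, List.length_replicate]

end Pool.Agent.CKP
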