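import Pool.Agent.Lib_helper74.CKF.Defs

/-!
# Minimization problems of nondeterministic exponential time, for the machine model of `CKF.Defs`
-/

set_option autoImplicit false

namespace Pool.Agent.CK

/-- `y` is a witness for `x`: the verifier `c` (an oracle program, input `x` on stack `0`, witness
`y` on stack `1`) accepts in time `2 ^ (k (|x| + 1))`, and `y` is not longer than that.  The
languages `{x : x has a witness}` of such verifiers are the languages in `NE^O`. -/
def NEWitness (O : Lang) (c : Cmd) (k : ℕ) (x y : List Bool) : Prop :=
  y.length ≤ 2 ^ (k * (x.length + 1)) ∧ Accepts O c x y (2 ^ (k * (x.length + 1)))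

/-- The number of a string: `1` followed by its bits, the first bit being the least significant
one.  Strings are ordered by length and then by the numbers they code. -/
def rank (y : List Bool) : ℕ := y.foldr (fun b n => 2 * n + b.toNat) 1

/-- The deterministic oracle program `p` solves, within `t` steps, the minimization problem of the
verifier `(c, k)` on the input `x`: it halts, it accepts if and only if there is a witness, and
if it accepts then below the accepting bit on stack `0` there is the witness of least rank. -/
def SolvesLeast (O : Lang) (c : Cmd) (k : ℕ) (p : Cmd) (x : List Bool) (t : ℕ) : Prop :=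
  Halts O p x [] t ∧ (Accepts O p x [] t ↔ ∃ y, NEWitness O c k x y) ∧
    (Accepts O p x [] t → NEWitness O c k x ((run O p x [] t).2 0).tail ∧
      ∀ y, NEWitness O c k x y → rank ((run O p x [] t).2 0).tail ≤ rank y)

/-- `C` is complete for `NP^O` under honest many-one reductions: `|x| ≤ (|f x| + 2) ^ j`. -/
def HonestComplete (O C : Lang) : Prop :=
  InNP O C ∧ ∀ A, InNP O A → ∃ f : List Bool → List Bool, InFP O f ∧
    (∃ j : ℕ, ∀ x, x.length ≤ ((f x).length + 2) ^ j) ∧ ∀ x, A x = C (f x)

end Pool.Agent.CK
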