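import Pool.Agent.Lib_helper74.NF.Final

/-! Computations with an oracle in `NP^O`, and their least transcripts. -/

set_option autoImplicit false
set_option linter.unusedSectionVars false

namespace Pool.Agent.CKP

open Pool.Agent.CK

variable {O : Lang}
variable {α β γ δ : Type} [ToD α] [ToD β] [ToD γ] [ToD δ]

/-! ### numbers and bit lists, most significant bit first -/

/-- the number with binary digits `l`, most significant digit first -/
def mval (l : List Bool) : ℕ := l.foldl (fun s b => 2 * s + b.toNat) 0

/-- the last `n` binary digits of `v`, most significant digit first -/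
def msbN : ℕ → ℕ → List Bool
  | 0, _ => []
  | n + 1, v => msbN n v.div2 ++ [v.bodd]

theorem mval_snoc (l : List Bool) (b : Bool) : mval (l ++ [b]) = 2 * mval l + b.toNat := by
  unfold mval
  rw [List.foldl_append]
  rfl

theorem mval_append (p r : List Bool) : mval (p ++ r) = mval p * 2 ^ r.length + mval r := by
  induction r using List.reverseRecOn with
  | nil => simp [mval]
  | append_singleton r b ih =>
    rw [← List.append_assoc, mval_snoc, ih, mval_snoc, List.length_append, List.length_singleton,
      pow_succ]
    ring

theorem mval_lt (l : List Bool) : mval l < 2 ^ l.length := by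
  induction l using List.reverseRecOn with
  | nil => simp [mval]
  | append_singleton r b ih =>
    rw [mval_snoc, List.length_append, List.length_singleton, pow_succ]
    cases b <;> simp only [Bool.toNat_false, Bool.toNat_true] <;> omega

theorem mval_lt_mval (p r r' : List Bool) (h : r'.length = r.length) :
    mval (p ++ false :: r') < mval (p ++ true :: r) := by
  have h1 : mval (p ++ false :: r') = (2 * mval p) * 2 ^ r.length + mval r' := by
    rw [show p ++ false :: r' = (p ++ [false]) ++ r' by simp, mval_append, mval_snoc, h]
    simp
  have h2 : mval (p ++ true :: r) = (2 * mval p + 1) * 2 ^ r.length + mval r := by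
    rw [show p ++ true :: r = (p ++ [true]) ++ r by simp, mval_append, mval_snoc]
    simp
  rw [h1, h2]
  have h3 := mval_lt r'
  rw [h] at h3
  nlinarith

theorem msbN_length (n v : ℕ) : (msbN n v).length = n := by
  induction n generalizing v with
  | zero => rfl
  | succ n ih => rw [msbN, List.length_append, ih]; rfl

theorem mval_msbN (n : ℕ) : ∀ v < 2 ^ n, mval (msbN n v) = v := by
  induction n with
  | zero =>
    intro v hv
    have : v = 0 := by simpa using hv
    subst this
    rfl
  | succ n ih =>
    intro v hv
    rw [msbN, mval_snoc, ih]
    · have := Nat.bodd_add_div2 v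
      omega
    · rw [pow_succ] at hv
      have := Nat.bodd_add_div2 v
      omega

theorem msbN_mval (l : List Bool) : msbN l.length (mval l) = l := by
  induction l using List.reverseRecOn with
  | nil => rfl
  | append_singleton r b ih =>
    rw [List.length_append, List.length_singleton, msbN, mval_snoc]
    have h1 : (2 * mval r + b.toNat).div2 = mval r := by
      rw [Nat.div2_val]
      cases b <;> simp only [Bool.toNat_false, Bool.toNat_true] <;> omega
    have h2 : (2 * mval r + b.toNat).bodd = b := by
      rw [← Nat.bit_val]
      exact Nat.bodd_bit b _
    rw [h1, h2, ih]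

/-- typed version of `msbN` -/
def msb (U : List Unit) (v : ℕ) : List Bool :=
  (U.foldl (fun (s : ℕ × List Bool) _ => (s.1.div2, s.1.bodd :: s.2)) (v, [])).2

theorem msb_eq (U : List Unit) (v : ℕ) : msb U v = msbN U.length v := by
  have key : ∀ (U : List Unit) (v : ℕ) (acc : List Bool),
      (U.foldl (fun (s : ℕ × List Bool) _ => (s.1.div2, s.1.bodd :: s.2)) (v, acc)).2 =
        msbN U.length v ++ acc := by
    intro U
    induction U with
    | nil => intro v acc; rfl
    | cons a t ih =>
      intro v acc
      rw [List.foldl_cons, ih, List.length_cons, msbN, List.append_assoc]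
      rfl
  unfold msb
  rw [key, List.append_nil]

theorem PTime.msb {U : γ → List Unit} {v : γ → ℕ} (hU : PTime O U) (hv : PTime O v) :
    PTime O (fun a => CKP.msb (U a) (v a)) := by
  unfold CKP.msb
  refine PTime.snd (PTime.foldl_add (l := U) (i := fun a => (v a, ([] : List Bool)))
    (s := fun _ s _ => (s.1.div2, s.1.bodd :: s.2)) hU (hv.pair (PTime.const [])) ?_
    (Polynomial.C 4) ?_)
  · have h1 : PTime O (fun p : γ × (ℕ × List Bool) × Unit => p.2.1.1) := PTime.id.snd.fst.fst
    exact h1.div2.pair (PTime.cons h1.bodd PTime.id.snd.fst.snd)
  · intro a s c _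
    rw [Polynomial.eval_C]
    obtain ⟨s1, s2⟩ := s
    rw [sz_pair, sz_pair, sz_cons]
    have g1 := num_sz_div2 s1
    have g2 := (num_bool_sz s1.bodd).2
    simp only
    omega

/-! ### one step with a given answer -/

/-- the string about which the next step may ask -/
def cq (q : List D × List (List Bool)) : List Bool := lcase q.1 [] fun c _ => getU q.2 (regU c)

theorem stepU_congr {O1 O2 : Lang} (q : List D × List (List Bool)) (h : O1 (cq q) = O2 (cq q)) :
    stepU O1 q = stepU O2 q := by
  obtain ⟨K, S⟩ := q
  cases K with
  | nil => rfl
  | cons c K =>
    have h' : O1 (getU S (regU c)) = O2 (getU S (regU c)) := h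
    show stepC O1 c K S = stepC O2 c K S
    unfold stepC
    rw [h']

theorem PTime.cq {q : γ → List D × List (List Bool)} (hq : PTime O q) :
    PTime O (fun a => CKP.cq (q a)) := by
  unfold CKP.cq
  refine PTime.lcase (l := fun a => (q a).1) (n := fun _ => ([] : List Bool))
    (c := fun a c _ => CKP.getU (q a).2 (regU c)) hq.fst (PTime.const []) ?_
  exact PTime.getU (hq.comp PTime.id.fst).snd (PTime.id.snd.fst.cdr.car.toList)

theorem stepG_ptime :
    PTime O (fun p : (List D × List (List Bool)) × Bool => stepU (join O fun _ => p.2) p.1) := by
  unfold stepU
  refine PTime.lcase (l := fun p : (List D × List (List Bool)) × Bool => p.1.1)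
    (n := fun p => p.1) (c := fun p c K => stepC (join O fun _ => p.2) c K p.1.2)
    PTime.id.fst.fst PTime.id.fst ?_
  have hS : PTime O (fun p : ((List D × List (List Bool)) × Bool) × D × List D => p.1.1.2) :=
    PTime.id.fst.fst.snd
  have ha : PTime O (fun p : ((List D × List (List Bool)) × Bool) × D × List D => p.1.2) :=
    PTime.id.fst.snd
  have hc : PTime O (fun p : ((List D × List (List Bool)) × Bool) × D × List D => p.2.1) :=
    PTime.id.snd.fst
  have hK : PTime O (fun p : ((List D × List (List Bool)) × Bool) × D × List D => p.2.2) :=
    PTime.id.snd.snd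
  have hr : PTime O (fun p : ((List D × List (List Bool)) × Bool) × D × List D =>
      regU p.2.1) := hc.cdr.car.toList
  have hg := PTime.getU hS hr
  have hans : PTime O (fun p : ((List D × List (List Bool)) × Bool) × D × List D =>
      (join O fun _ => p.1.2) (CKP.getU p.1.1.2 (regU p.2.1))) := by
    refine (PTime.ite (PTime.isNil hg) (PTime.const false) (PTime.ite
      (PTime.headD hg (PTime.const false)) ha (PTime.ask (PTime.tail hg)))).of_eq fun p => ?_
    generalize CKP.getU p.1.1.2 (regU p.2.1) = w
    cases w with
    | nil => rfl
    | cons b w => cases b <;> rfl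
  unfold stepC
  refine PTime.ite (hc.tagIs 1) (hK.pair (PTime.setU hS hr (PTime.cons hc.cdr.cdr.toBool hg))) ?_
  refine PTime.ite (hc.tagIs 2) (hK.pair (PTime.setU hS hr (PTime.tail hg))) ?_
  refine PTime.ite (hc.tagIs 3) ((hc.cdr.car.cons (hc.cdr.cdr.cons hK)).pair hS) ?_
  refine PTime.ite (hc.tagIs 4) (((PTime.ite (PTime.isNil hg) hc.cdr.cdr.car
    (PTime.ite (PTime.headD hg (PTime.const false)) hc.cdr.cdr.cdr.cdr
      hc.cdr.cdr.cdr.car)).cons hK).pair hS) ?_
  refine PTime.ite (hc.tagIs 5) (PTime.ite (PTime.isNil hg) (hK.pair hS)
    ((hc.cdr.cdr.cons (hc.cons hK)).pair hS)) ?_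
  exact PTime.ite (hc.tagIs 6) (((PTime.ite hans hc.cdr.cdr.cdr
    hc.cdr.cdr.car).cons hK).pair hS) (hK.pair hS)

/-! ### transcripts -/

/-- the first `|u|` bits of `l` -/
def utake (u : List Unit) (l : List Bool) : List Bool :=
  (rangeU u).map fun t => l.getD t.length false

theorem utake_eq (u : List Unit) (l : List Bool) (h : u.length ≤ l.length) :
    utake u l = l.take u.length := by
  unfold utake
  have hu : u = List.replicate u.length () := units_eq u
  rw [hu, rangeU_replicate, List.map_map, List.length_replicate]
  refine List.ext_getElem (by simp; omega) ?_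
  intro i h1 h2
  simp only [List.length_map, List.length_range] at h1
  have h3 : i < l.length := by omega
  simp [List.getD_eq_getElem?_getD, h3]

theorem PTime.utake {u : γ → List Unit} {l : γ → List Bool} (hu : PTime O u) (hl : PTime O l) :
    PTime O (fun a => CKP.utake (u a) (l a)) := by
  unfold CKP.utake
  exact PTime.map (f := fun a (t : List Unit) => (l a).getD t.length false) (PTime.rangeU hu)
    (PTime.getD PTime.id.snd (hl.comp PTime.id.fst) (PTime.const false))

/-- the string coded in a block -/
def wdec (l : List Bool) : List Bool := (ofBits l).bits.dropLast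

theorem ofBits_zeros (l : List Bool) (j : ℕ) : ofBits (l ++ List.replicate j false) = ofBits l := by
  induction l with
  | nil =>
    induction j with
    | zero => rfl
    | succ j ih =>
      rw [List.nil_append] at ih ⊢
      rw [List.replicate_succ, ofBits_cons, ih]
      rfl
  | cons b t ih => rw [List.cons_append, ofBits_cons, ih, ofBits_cons]

theorem wdec_eq (y : List Bool) (j : ℕ) : wdec (y ++ true :: List.replicate j false) = y := by
  unfold wdec
  rw [show y ++ true :: List.replicate j false = (y ++ [true]) ++ List.replicate j false by simp,
    ofBits_zeros, bits_ofBits_snoc, List.dropLast_concat]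

/-- state of a run that reads a transcript -/
abbrev TSt := (List D × List (List Bool)) × Bool × List Bool

/-- One step: the first bit of the block is `1` for the answer no; if the answer is yes, the rest
of the block codes a witness, which is checked. -/
def tstep (O : Lang) (g : List Bool → List Bool) (b : List Unit) (s : TSt) : TSt :=
  (stepU (join O fun _ => !(s.2.2.headD true)) s.1,
    s.2.1 && ((!(cq s.1).headD false || s.2.2.headD true) ||
      VU O (g (cq s.1).tail, wdec (utake b.tail s.2.2.tail))), udrop b s.2.2)

/-- `|N|` steps -/
def trun (O : Lang) (g : List Bool → List Bool) (b N : List Unit) (s : TSt) : TSt :=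
  N.foldl (fun s _ => tstep O g b s) s

variable {g : List Bool → List Bool} {b : List Unit}

theorem trun_add (i j : ℕ) (s : TSt) : trun O g b (List.replicate (i + j) ()) s =
    trun O g b (List.replicate j ()) (trun O g b (List.replicate i ()) s) := by
  unfold trun
  rw [← List.replicate_append_replicate, List.foldl_append]

theorem trun_succ (i : ℕ) (s : TSt) : trun O g b (List.replicate (i + 1) ()) s =
    tstep O g b (trun O g b (List.replicate i ()) s) := by
  rw [trun_add]
  rfl

theorem trun_succ' (i : ℕ) (s : TSt) : trun O g b (List.replicate (i + 1) ()) s =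
    trun O g b (List.replicate i ()) (tstep O g b s) := by
  rw [Nat.add_comm, trun_add]
  rfl

theorem trun_ok (n : ℕ) (s : TSt) (h : (trun O g b (List.replicate n ()) s).2.1 = true) :
    s.2.1 = true := by
  induction n with
  | zero => exact h
  | succ n ih =>
    rw [trun_succ] at h
    refine ih ?_
    unfold tstep at h
    simp only [Bool.and_eq_true] at h
    exact h.1

/-- a transcript that always says no is valid -/
theorem trun_no (hb : 1 ≤ b.length) (n : ℕ) (q : List D × List (List Bool)) :
    (trun O g b (List.replicate n ()) (q, true, List.replicate (b.length * n) true)).2.1 =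
      true := by
  induction n generalizing q with
  | zero => rfl
  | succ n ih =>
    rw [trun_succ']
    have h1 : tstep O g b (q, true, List.replicate (b.length * (n + 1)) true) =
        (stepU (join O fun _ => false) q, true, List.replicate (b.length * n) true) := by
      have h2 : b.length * (n + 1) = (b.length * n + b.length - 1) + 1 := by
        rw [Nat.mul_succ]; omega
      unfold tstep
      simp only
      rw [udrop_eq, List.drop_replicate, h2, List.replicate_succ, List.headD_cons]
      simp only [Bool.not_true, Bool.or_true, Bool.true_or, Bool.and_true]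
      congr 3
      omega
    rw [h1]
    exact ih _

/-- only the blocks that are read matter -/
theorem trun_append (n : ℕ) : ∀ (q : List D × List (List Bool)) (ok : Bool) (p X : List Bool),
    1 ≤ b.length → p.length = b.length * n →
    trun O g b (List.replicate n ()) (q, ok, p ++ X) =
      ((trun O g b (List.replicate n ()) (q, ok, p)).1,
        (trun O g b (List.replicate n ()) (q, ok, p)).2.1, X) := by
  induction n with
  | zero =>
    intro q ok p X _ hp
    have : p = [] := by
      rw [Nat.mul_zero] at hp
      exact List.length_eq_zero_iff.mp hp
    subst this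
    rfl
  | succ n ih =>
    intro q ok p X hb hp
    rw [Nat.mul_succ] at hp
    rw [trun_succ', trun_succ']
    have hpne : p ≠ [] := by
      intro h
      rw [h, List.length_nil] at hp
      omega
    obtain ⟨a, p', rfl⟩ := List.exists_cons_of_ne_nil hpne
    have hlen : p'.length + 1 = b.length * n + b.length := by simpa using hp
    have h1 : ∀ Y : List Bool, tstep O g b (q, ok, (a :: p') ++ Y) =
        ((tstep O g b (q, ok, a :: p')).1, (tstep O g b (q, ok, a :: p')).2.1,
          (a :: p').drop b.length ++ Y) := by
      intro Y
      unfold tstep
      simp only [List.cons_append, List.headD_cons, List.tail_cons]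
      have hbt : b.tail.length = b.length - 1 := List.length_tail
      rw [utake_eq _ _ (by rw [List.length_append]; omega), utake_eq _ _ (by omega),
        List.take_append_of_le_length (by omega), udrop_eq]
      rw [show a :: (p' ++ Y) = (a :: p') ++ Y by simp, List.drop_append_of_le_length (by
        rw [List.length_cons]; omega)]
    rw [h1 X]
    have h2 := h1 []
    rw [List.append_nil, List.append_nil] at h2
    rw [h2]
    exact ih _ _ _ X hb (by rw [List.length_drop, List.length_cons]; omega)

theorem tstep_yes {q : List D × List (List Bool)} {y w X : List Bool} {j : ℕ}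
    (hcq : cq q = true :: w) (hy : VU O (g w, y) = true) (hj : y.length + 1 + j + 1 = b.length) :
    tstep O g b (q, true, false :: (y ++ true :: List.replicate j false) ++ X) =
      (stepU (join O fun _ => true) q, true, X) := by
  unfold tstep
  simp only [List.cons_append, List.headD_cons, List.tail_cons, Bool.not_false]
  rw [hcq]
  have hbt : b.tail.length = b.length - 1 := List.length_tail
  have hl : (y ++ true :: List.replicate j false).length = b.length - 1 := by
    simp only [List.length_append, List.length_cons, List.length_replicate]; omega
  rw [utake_eq _ _ (by rw [List.length_append, hl]; omega), hbt, ← hl, List.take_left', udrop_eq]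
  · simp only [List.tail_cons, List.headD_cons, Bool.not_true, Bool.or_self, Bool.false_or,
      Bool.true_and]
    rw [wdec_eq, hy]
    refine congrArg₂ Prod.mk rfl (congrArg₂ Prod.mk rfl ?_)
    have hb1 : b.length = (y ++ true :: List.replicate j false).length + 1 := by omega
    rw [hb1, List.drop_succ_cons, List.drop_left']
    rfl
  · rfl

end Pool.Agent.CKP
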