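import Pool.Agent.Lib_helper74.NF.ENP

/-! The verifier of transcripts, and the least transcript. -/

set_option autoImplicit false
set_option linter.unusedSectionVars false

namespace Pool.Agent.CKP

open Pool.Agent.CK

variable {O : Lang}
variable {α β γ δ : Type} [ToD α] [ToD β] [ToD γ] [ToD δ]

/-! ### polynomial time -/

theorem PTime.wdec {l : γ → List Bool} (hl : PTime O l) : PTime O (fun a => CKP.wdec (l a)) :=
  PTime.dropLast (PTime.bits (PTime.ofBits hl))

theorem PTime.tstep {g : List Bool → List Bool} (hg : PTime O g) {b : γ → List Unit} {s : γ → TSt}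
    (hb : PTime O b) (hs : PTime O s) : PTime O (fun a => CKP.tstep O g (b a) (s a)) := by
  unfold CKP.tstep
  refine (stepG_ptime.comp (hs.fst.pair (PTime.headD hs.snd.snd (PTime.const true)).not)).pair
    ((hs.snd.fst.and ?_).pair (PTime.udrop hb hs.snd.snd))
  refine ((PTime.headD (PTime.cq hs.fst) (PTime.const false)).not.or
    (PTime.headD hs.snd.snd (PTime.const true))).or ?_
  exact PTime.VU (hg.comp (PTime.tail (PTime.cq hs.fst)))
    (PTime.wdec (PTime.utake (PTime.tail hb) (PTime.tail hs.snd.snd)))

theorem sz_udrop_le (u : List Unit) (l : List Bool) : sz (udrop u l) ≤ sz l := by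
  unfold udrop
  induction u generalizing l with
  | nil => exact le_rfl
  | cons a t ih => exact (ih l.tail).trans (sz_tail_le l)

theorem trun_bound {g : List Bool → List Bool} (b : List Unit) (s : ℕ) (N : List Unit) (q : TSt)
    (h : ∀ c ∈ q.1.1, sz c ≤ s) :
    (∀ c ∈ (trun O g b N q).1.1, sz c ≤ s) ∧ (trun O g b N q).1.1.length ≤ q.1.1.length + N.length ∧
      sz (trun O g b N q).1.2 ≤ sz q.1.2 + N.length * (2 * s + 8) ∧
      sz (trun O g b N q).2.2 ≤ sz q.2.2 := by
  unfold trun
  induction N generalizing q with
  | nil => exact ⟨h, by simp, by simp, le_rfl⟩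
  | cons a t ih =>
    rw [List.foldl_cons, List.length_cons]
    obtain ⟨h1, h2, h3⟩ := stepU_bound (O := join O fun _ => !(q.2.2.headD true)) s q.1 h
    obtain ⟨g1, g2, g3, g4⟩ := ih (tstep O g b q) h1
    refine ⟨g1, ?_, ?_, g4.trans (sz_udrop_le b q.2.2)⟩
    · have e1 : (tstep O g b q).1.1.length ≤ q.1.1.length + 1 := h2
      omega
    · have e1 : sz (tstep O g b q).1.2 ≤ sz q.1.2 + 2 * s + 8 := h3
      rw [Nat.succ_mul]
      omega

theorem PTime.trun {g : List Bool → List Bool} (hg : PTime O g) {b : γ → List Unit} {c : γ → D}
    {S : γ → List (List Bool)} {N : γ → List Unit} {w : γ → List Bool} (hb : PTime O b)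
    (hc : PTime O c) (hS : PTime O S) (hN : PTime O N) (hw : PTime O w) :
    PTime O (fun x => CKP.trun O g (b x) (N x) (([c x], S x), true, w x)) := by
  obtain ⟨Pc, hPc⟩ := hc.size_le
  obtain ⟨PS, hPS⟩ := hS.size_le
  obtain ⟨PN, hPN⟩ := hN.size_le
  obtain ⟨Pw, hPw⟩ := hw.size_le
  unfold CKP.trun
  refine PTime.foldl (l := N) (i := fun x => (([c x], S x), true, w x))
    (s := fun x q _ => CKP.tstep O g (b x) q) hN
    (((PTime.cons hc (PTime.const [])).pair hS).pair ((PTime.const true).pair hw))
    (PTime.tstep hg (hb.comp PTime.id.fst) PTime.id.snd.fst)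
    ((1 + PN) * (Pc + 1) + 1 + (PS + PN * (2 * Pc + 8)) + 1 + (3 + Pw + 1) + 1) ?_
  intro x l' hl'
  have h1 := trun_bound (O := O) (g := g) (b x) (sz (c x)) l' (([c x], S x), true, w x) (by
    intro d hd
    simp only [List.mem_singleton] at hd
    rw [hd])
  unfold CKP.trun at h1
  obtain ⟨g1, g2, g3, g4⟩ := h1
  generalize l'.foldl (fun q _ => CKP.tstep O g (b x) q) (([c x], S x), true, w x) = q
    at g1 g2 g3 g4
  have h2 : l'.length ≤ PN.eval (sz x) :=
    (hl'.length_le.trans (length_le_sz _)).trans (hPN x)
  have h3 := sz_list_le q.1.1 g1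
  have h4 := hPc x
  have h5 := hPS x
  have h5' := hPw x
  have h6 : q.1.1.length * (sz (c x) + 1) ≤ (1 + PN.eval (sz x)) * (Pc.eval (sz x) + 1) := by
    apply Nat.mul_le_mul
    · simp only [List.length_singleton] at g2; omega
    · omega
  have h7 : l'.length * (2 * sz (c x) + 8) ≤ PN.eval (sz x) * (2 * Pc.eval (sz x) + 8) := by
    apply Nat.mul_le_mul h2
    omega
  have h8 : sz q = sz q.1.1 + sz q.1.2 + 1 + (sz q.2.1 + sz q.2.2 + 1) + 1 := rfl
  have h9 := (num_bool_sz q.2.1).2
  simp only [Polynomial.eval_add, Polynomial.eval_mul, Polynomial.eval_ofNat,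
    Polynomial.eval_one]
  simp only at g3 g4
  omega

/-! ### the verifier -/

/-- `v` codes a valid transcript of the first `T m` steps of the program `c` on input `x m` -/
def WT (O : Lang) (c : Cmd) (x : ℕ → List Bool) (g : List Bool → List Bool) (b T : ℕ → ℕ)
    (m v : ℕ) : Bool :=
  decide (v.bits.length ≤ b m * T m) &&
    (trun O g (List.replicate (b m) ()) (List.replicate (T m) ())
      (([cmdD c], [x m, []]), true, msb (List.replicate (b m * T m) ()) v)).2.1

theorem WT_ver (c : Cmd) {x : ℕ → List Bool} {g : List Bool → List Bool} {b T : ℕ → ℕ}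
    (hx : PTime O (fun u : List Unit => x u.length)) (hg : PTime O g) (hb : UPoly O b)
    (hT : UPoly O T) : Ver O (WT O c x g b T) (fun m => b m * T m) := by
  have hbT := hb.mul hT
  refine ⟨?_, hbT, ?_⟩
  · have hN : PTime O (fun p : List Unit × ℕ => List.replicate (b p.1.length * T p.1.length) ()) :=
      hbT.comp PTime.id.fst
    exact (PTime.nat_le (PTime.length (PTime.bits PTime.id.snd))
      ((PTime.length hN).of_eq fun _ => List.length_replicate ..)).and
      (PTime.trun hg (hb.comp PTime.id.fst) (PTime.const (cmdD c))
        (PTime.cons (hx.comp PTime.id.fst) (PTime.const [[]]))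
        (hT.comp PTime.id.fst) (PTime.msb hN PTime.id.snd)).snd.fst
  · intro m v hv
    unfold WT at hv
    rw [Bool.and_eq_true, decide_eq_true_eq, Nat.size_eq_bits_len] at hv
    exact Nat.size_le.mp hv.1

theorem WT_mval {c : Cmd} {x : ℕ → List Bool} {g : List Bool → List Bool} {b T : ℕ → ℕ} {m : ℕ}
    {l : List Bool} (hl : l.length = b m * T m) :
    WT O c x g b T m (mval l) = (trun O g (List.replicate (b m) ()) (List.replicate (T m) ())
      (([cmdD c], [x m, []]), true, l)).2.1 := by
  unfold WT
  have h1 : (mval l).bits.length ≤ b m * T m := by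
    rw [Nat.size_eq_bits_len, Nat.size_le, ← hl]
    exact mval_lt l
  rw [decide_eq_true h1, Bool.true_and, msb_eq, List.length_replicate, ← hl, msbN_mval]

theorem WT_exists {c : Cmd} {x : ℕ → List Bool} {g : List Bool → List Bool} {b T : ℕ → ℕ} {m : ℕ}
    (hb : 1 ≤ b m) : ∃ v, WT O c x g b T m v = true := by
  refine ⟨mval (List.replicate (b m * T m) true), ?_⟩
  rw [WT_mval (List.length_replicate ..)]
  have h := trun_no (O := O) (g := g) (b := List.replicate (b m) ())
    (by rw [List.length_replicate]; exact hb) (T m) ([cmdD c], [x m, []])
  rw [List.length_replicate] at h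
  exact h

theorem runU_succ (i : ℕ) (q : List D × List (List Bool)) :
    runU O q (List.replicate (i + 1) ()) = stepU O (runU O q (List.replicate i ())) := by
  unfold runU
  rw [← List.replicate_append_replicate (n := i) (m := 1), List.foldl_append]
  rfl

/-- the run described by the least transcript is the run with the oracle `O ⊕ B` -/
theorem least_trun {B : Lang} {c : Cmd} {x : ℕ → List Bool} {g : List Bool → List Bool}
    {b T : ℕ → ℕ} {m v : ℕ} (hg : ∀ w, B w = UK O (g w))
    (hb : ∀ i < T m, (g (cq (runU (join O B) ([cmdD c], [x m, []])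
      (List.replicate i ()))).tail).length + 2 ≤ b m) (hb1 : 1 ≤ b m)
    (hv : WT O c x g b T m v = true) (hmin : ∀ v' < v, ¬ WT O c x g b T m v' = true) :
    ∀ i ≤ T m, (trun O g (List.replicate (b m) ()) (List.replicate i ())
      (([cmdD c], [x m, []]), true, msb (List.replicate (b m * T m) ()) v)).1 =
        runU (join O B) ([cmdD c], [x m, []]) (List.replicate i ()) := by
  set tr := msb (List.replicate (b m * T m) ()) v with htr
  set q0 : List D × List (List Bool) := ([cmdD c], [x m, []]) with hq0
  have hvlt : v < 2 ^ (b m * T m) := by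
    unfold WT at hv
    rw [Bool.and_eq_true, decide_eq_true_eq, Nat.size_eq_bits_len] at hv
    exact Nat.size_le.mp hv.1
  have htrN : tr = msbN (b m * T m) v := by
    rw [htr, msb_eq, List.length_replicate]
  have hlen : tr.length = b m * T m := by rw [htrN, msbN_length]
  have hval : mval tr = v := by rw [htrN]; exact mval_msbN _ _ hvlt
  have hok : (trun O g (List.replicate (b m) ()) (List.replicate (T m) ()) (q0, true, tr)).2.1 =
      true := by
    rw [← WT_mval hlen, hval]
    exact hv
  intro i
  induction i with
  | zero => intro _; rfl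
  | succ i ih =>
    intro hi
    have ih := ih (by omega)
    obtain ⟨d, hd⟩ := Nat.exists_eq_add_of_lt (show i < T m by omega)
    have hbl : (List.replicate (b m) ()).length = b m := List.length_replicate ..
    -- split the transcript
    obtain ⟨p, X, hpX, hp⟩ : ∃ p X, tr = p ++ X ∧ p.length = b m * i :=
      ⟨tr.take (b m * i), tr.drop (b m * i), (List.take_append_drop _ _).symm, by
        rw [List.length_take, hlen]
        exact min_eq_left (Nat.mul_le_mul_left _ (by omega))⟩
    have hX : X.length = b m * (d + 1) := by
      have h1 := congrArg List.length hpX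
      rw [List.length_append, hlen, hp, hd] at h1
      have h2 : b m * (i + d + 1) = b m * i + b m * (d + 1) := by ring
      omega
    have happ := trun_append (O := O) (g := g) (b := List.replicate (b m) ()) i q0 true p X
      (by rw [hbl]; exact hb1) (by rw [hbl]; exact hp)
    rw [hpX, happ] at ih
    simp only at ih
    rw [runU_succ, trun_succ, hpX, happ, ih]
    set q := runU (join O B) q0 (List.replicate i ()) with hq
    have hoki : (trun O g (List.replicate (b m) ()) (List.replicate (i + 1) ())
        (q0, true, tr)).2.1 = true := by
      refine trun_ok (O := O) (g := g) (b := List.replicate (b m) ()) d _ ?_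
      rw [← trun_add, show i + 1 + d = T m by omega]
      exact hok
    rw [trun_succ, hpX, happ, ih] at hoki
    have hok' : (trun O g (List.replicate (b m) ()) (List.replicate i ()) (q0, true, p)).2.1 =
        true := by
      unfold tstep at hoki
      simp only [Bool.and_eq_true] at hoki
      exact hoki.1
    obtain ⟨a, X', rfl⟩ : ∃ a X', X = a :: X' := by
      refine List.exists_cons_of_ne_nil ?_
      intro h0
      rw [h0, List.length_nil] at hX
      have : 0 < b m * (d + 1) := Nat.mul_pos (by omega) (by omega)
      omega
    show stepU (join O fun _ => !a) q = stepU (join O B) q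
    refine stepU_congr q ?_
    rcases hcq : cq q with _ | ⟨e, w⟩
    · rfl
    cases e with
    | false => rfl
    | true =>
      show (!a) = B w
      unfold tstep at hoki
      simp only [Bool.and_eq_true, List.headD_cons, List.tail_cons] at hoki
      rw [hcq] at hoki
      simp only [List.headD_cons, List.tail_cons, Bool.not_true, Bool.false_or,
        Bool.or_eq_true] at hoki
      cases a with
      | false =>
        obtain ⟨_, h1 | h1⟩ := hoki
        · exact absurd h1 (by simp)
        · rw [hg w, UK_of_VU h1]
          rfl
      | true =>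
        by_contra hne
        have hB : B w = true := by
          cases hBw : B w with
          | true => rfl
          | false => rw [hBw] at hne; exact absurd rfl hne
        rw [hg w, UK_iff] at hB
        obtain ⟨y, hy, hVU⟩ := hB
        have hbi := hb i (by omega)
        rw [← hq, hcq, List.tail_cons] at hbi
        obtain ⟨j, hj⟩ := Nat.exists_eq_add_of_le (show y.length + 2 ≤ b m by omega)
        have hXl : X'.length + 1 = b m * (d + 1) := by simpa using hX
        -- the smaller transcript
        set r' := (y ++ true :: List.replicate j false) ++ List.replicate (b m * d) true with hr'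
        have hr'l : r'.length = X'.length := by
          rw [hr']
          simp only [List.length_append, List.length_cons, List.length_replicate]
          have h2 : b m * (d + 1) = b m * d + b m := by ring
          omega
        have hl' : (p ++ false :: r').length = b m * T m := by
          rw [← hlen, hpX, List.length_append, List.length_append, List.length_cons,
            List.length_cons, hr'l]
        refine hmin (mval (p ++ false :: r')) ?_ ?_
        · rw [← hval, hpX]
          exact mval_lt_mval p X' r' hr'l
        · rw [WT_mval hl', show T m = i + (1 + d) by omega, trun_add]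
          rw [← hq0, trun_append i q0 true p (false :: r') (by rw [hbl]; exact hb1)
            (by rw [hbl]; exact hp), hok', ih, Nat.add_comm 1 d, trun_succ']
          have h3 := tstep_yes (O := O) (g := g) (b := List.replicate (b m) ()) (q := q) (y := y)
            (w := w) (X := List.replicate (b m * d) true) (j := j) hcq hVU
            (by rw [hbl]; omega)
          rw [show false :: r' = false :: (y ++ true :: List.replicate j false) ++
            List.replicate (b m * d) true by rw [hr']; rfl, h3]
          have h4 := trun_no (O := O) (g := g) (b := List.replicate (b m) ())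
            (by rw [hbl]; exact hb1) d (stepU (join O fun _ => true) q)
          rw [hbl] at h4
          exact h4

end Pool.Agent.CKP
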