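import Pool.Agent.Lib_helper74.NF.CL

/-! `CL` is Turing-complete for `NP^O`. -/

set_option autoImplicit false
set_option linter.unusedSectionVars false

namespace Pool.Agent.CKP

open Pool.Agent.CK

variable {O : Lang}
variable {α β γ δ : Type} [ToD α] [ToD β] [ToD γ] [ToD δ]

/-- query of type 1 -/
def q1 (u : List Unit) (t : ℕ) : List Bool := (D.cons .nil (.cons (toD u) (toD t))).enc
/-- query of type 2 -/
def q2 (x : List Bool) (ws : List (Bool × ℕ)) : List Bool :=
  (D.cons (.cons .nil .nil) (.cons (toD x) (toD ws))).enc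

theorem toBits_toD_nat (n : ℕ) : toBits (toD n) = n.bits := toBits_toD n.bits

theorem CL_q1 {W : ℕ → ℕ → Bool} {r k : ℕ} (u : List Unit) (t : ℕ) :
    CL O W r k (q1 u t) = true ↔ ∃ v < t, W u.length v = true := by
  rw [CL_iff]
  have hdec : dec (q1 u t) = D.cons .nil (.cons (toD u) (toD t)) := dec_enc _
  have h1 : typ (q1 u t) = false := by unfold typ; rw [hdec]; rfl
  have h2 : (colr (q1 u t)).length = u.length := by
    unfold colr
    rw [hdec]
    show (toList (toD u)).length = _
    rw [toList_toD, List.length_map]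
  have h3 : thr (q1 u t) = t := by
    unfold thr
    rw [hdec]
    show ofBits (toBits (toD t)) = t
    rw [toBits_toD_nat, ofBits_bits]
  unfold CLP
  rw [h1, h2, h3]
  simp

theorem typ_q2 (x : List Bool) (ws : List (Bool × ℕ)) : typ (q2 x ws) = true := by
  unfold typ q2
  rw [dec_enc]
  rfl

theorem xx_q2 (x : List Bool) (ws : List (Bool × ℕ)) : xx (q2 x ws) = x := by
  unfold xx q2
  rw [dec_enc]
  exact toBits_toD x

theorem wss_q2 (x : List Bool) (ws : List (Bool × ℕ)) : wss (q2 x ws) = ws := by
  unfold wss q2
  rw [dec_enc]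
  show (toList (toD ws)).map _ = ws
  rw [toList_toD, List.map_map]
  conv_rhs => rw [← List.map_id ws]
  congr 1
  funext e
  obtain ⟨b, v⟩ := e
  show (toBool (toD b), ofBits (toBits (toD v))) = (b, v)
  rw [toBool_toD, toBits_toD_nat, ofBits_bits]

/-- one step of the binary search -/
def gstep (g : ℕ → Bool) (s : List Unit × ℕ) : List Unit × ℕ :=
  (s.1.tail, if g (ushl s.1.tail (Nat.bit true s.2)) = true then Nat.bit false s.2
    else Nat.bit true s.2)

/-- binary search for the least `v` such that `g (v + 1)` -/
def gfind (g : ℕ → Bool) (l : List Unit) : Bool × ℕ :=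
  if g (ushl l 1) = true then (true, (l.foldl (fun s _ => gstep g s) (l, 0)).2)
  else (false, 0)

theorem gfind_spec {g : ℕ → Bool} {P : ℕ → Prop} {L : ℕ}
    (hg : ∀ t, t ≤ 2 ^ L → (g t = true ↔ ∃ v < t, P v)) (hL : ∀ v, P v → v < 2 ^ L) :
    ((gfind g (List.replicate L ())).1 = true ↔ ∃ v, P v) ∧
    ((gfind g (List.replicate L ())).1 = true → P (gfind g (List.replicate L ())).2 ∧
      ∀ v < (gfind g (List.replicate L ())).2, ¬ P v) ∧
    (gfind g (List.replicate L ())).2 < 2 ^ L := by
  classical
  unfold gfind
  have hq : g (ushl (List.replicate L ()) 1) = true ↔ ∃ v, P v := by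
    rw [ushl_eq, List.length_replicate, one_mul, hg _ le_rfl]
    exact ⟨fun ⟨v, _, h⟩ => ⟨v, h⟩, fun ⟨v, h⟩ => ⟨v, hL v h, h⟩⟩
  by_cases h : ∃ v, P v
  · rw [if_pos (hq.mpr h)]
    set vs := Nat.find h with hvs
    have hWv : P vs := Nat.find_spec h
    have hmin : ∀ t, (∃ v < t, P v) ↔ vs < t := by
      intro t
      constructor
      · rintro ⟨v, hv, hw⟩
        exact lt_of_le_of_lt (Nat.find_min' h hw) hv
      · intro hv
        exact ⟨vs, hv, hWv⟩
    have key : ∀ j i : ℕ, i + j ≤ L → (List.replicate j ()).foldl (fun s _ => gstep g s)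
        (List.replicate (i + j) (), vs / 2 ^ (i + j)) = (List.replicate i (), vs / 2 ^ i) := by
      intro j
      induction j with
      | zero => intro i _; simp
      | succ j ih =>
        intro i hij
        rw [List.replicate_succ, List.foldl_cons]
        have : gstep g (List.replicate (i + (j + 1)) (), vs / 2 ^ (i + (j + 1))) =
            (List.replicate (i + j) (), vs / 2 ^ (i + j)) := by
          unfold gstep
          have e1 : (List.replicate (i + (j + 1)) ()).tail = List.replicate (i + j) () := by
            rw [show i + (j + 1) = (i + j) + 1 by ring, List.replicate_succ, List.tail_cons]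
          simp only
          rw [e1]
          congr 1
          have e2 : vs / 2 ^ (i + (j + 1)) = vs / 2 ^ (i + j) / 2 := by
            rw [Nat.div_div_eq_div_mul, ← pow_succ]; rfl
          rw [e2]
          set w := vs / 2 ^ (i + j) with hw
          have hp : 0 < 2 ^ (i + j) := by positivity
          have hcond : g (ushl (List.replicate (i + j) ()) (Nat.bit true (w / 2))) =
              true ↔ w % 2 = 0 := by
            rw [ushl_eq, List.length_replicate, Nat.bit_val, hg, hmin]
            · rw [← Nat.div_lt_iff_lt_mul hp, ← hw]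
              simp only [Bool.toNat_true]
              omega
            · obtain ⟨d, hd⟩ := Nat.exists_eq_add_of_le (show i + j + 1 ≤ L by omega)
              have h5 : 2 ^ L = 2 ^ (i + j) * (2 * 2 ^ d) := by
                rw [hd, pow_add, pow_succ]; ring
              have h6 : w < 2 * 2 ^ d := by
                rw [hw]
                apply Nat.div_lt_of_lt_mul
                rw [← h5]
                exact hL vs hWv
              rw [h5, Nat.mul_comm]
              refine Nat.mul_le_mul_left _ ?_
              simp only [Bool.toNat_true]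
              omega
          by_cases hc : w % 2 = 0
          · rw [if_pos (hcond.mpr hc), Nat.bit_val]
            simp only [Bool.toNat_false]
            omega
          · rw [if_neg (fun h => hc (hcond.mp h)), Nat.bit_val]
            simp only [Bool.toNat_true]
            omega
        rw [this]
        exact ih i (by omega)
    have h0 := key L 0 (by omega)
    have h1 : vs / 2 ^ (0 + L) = 0 := by
      rw [Nat.zero_add]
      exact Nat.div_eq_of_lt (hL vs hWv)
    rw [h1, Nat.zero_add] at h0
    rw [h0]
    simp only [pow_zero, Nat.div_one]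
    exact ⟨by simpa using h, fun _ => ⟨hWv, fun v hv => Nat.find_min h hv⟩, hL vs hWv⟩
  · rw [if_neg (fun h' => h (hq.mp h'))]
    exact ⟨by simpa using h, fun h => by simp at h, by positivity⟩

theorem PTime.gfind {g : γ → ℕ → Bool} {l : γ → List Unit} (hl : PTime O l)
    (hg : PTime O (fun p : γ × ℕ => g p.1 p.2)) :
    PTime O (fun a => CKP.gfind (g a) (l a)) := by
  unfold CKP.gfind
  refine PTime.ite ((hg.comp (PTime.id.pair (PTime.ushl hl (PTime.const 1)))).of_eq fun _ => rfl)
    ?_ (PTime.const _)
  refine (PTime.const true).pair (PTime.snd (PTime.foldl_add (l := l) (i := fun a => (l a, 0))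
    (s := fun a s _ => gstep (g a) s) hl (hl.pair (PTime.const 0)) ?_ (Polynomial.C 4) ?_))
  · unfold gstep
    have h1 : PTime O (fun p : γ × (List Unit × ℕ) × Unit => p.2.1.1.tail) :=
      PTime.tail PTime.id.snd.fst.fst
    have h2 : PTime O (fun p : γ × (List Unit × ℕ) × Unit => p.2.1.2) :=
      PTime.id.snd.fst.snd
    refine h1.pair (PTime.ite ?_ (PTime.bit (PTime.const false) h2)
      (PTime.bit (PTime.const true) h2))
    exact (hg.comp (PTime.id.fst.pair (PTime.ushl h1 (PTime.bit (PTime.const true) h2)))).of_eq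
      fun _ => rfl
  · intro a s c _
    rw [Polynomial.eval_C]
    obtain ⟨s1, s2⟩ := s
    unfold gstep
    rw [sz_pair, sz_pair]
    have g1 := sz_tail_le s1
    have g2 := sz_bit_le true s2
    have g3 := sz_bit_le false s2
    simp only
    split <;> omega

/-- search for the least witness with queries of type 1 -/
def findW (B : Lang) (l : List Unit) (u : List Unit) : Bool × ℕ := gfind (fun t => B (q1 u t)) l

theorem findW_spec {B : Lang} {W : ℕ → ℕ → Bool} {L : ℕ} (u : List Unit)
    (hB : ∀ t, B (q1 u t) = true ↔ ∃ v < t, W u.length v = true)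
    (hL : ∀ v, W u.length v = true → v < 2 ^ L) :
    ((findW B (List.replicate L ()) u).1 = true ↔ ∃ v, W u.length v = true) ∧
    ((findW B (List.replicate L ()) u).1 = true → W u.length
      (findW B (List.replicate L ()) u).2 = true ∧
      ∀ v < (findW B (List.replicate L ()) u).2, ¬ W u.length v = true) ∧
    (findW B (List.replicate L ()) u).2 < 2 ^ L :=
  gfind_spec (P := fun v => W u.length v = true) (fun t _ => hB t) hL

/-- the list of least witnesses -/
def wsOf (B : Lang) (ℓ : ℕ → ℕ) (N : List Unit) : List (Bool × ℕ) :=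
  (rangeU N).map fun u => findW B (List.replicate (ℓ u.length) ()) u

/-- the reduction of the universal language -/
def tred (B : Lang) (ℓ : ℕ → ℕ) (r : ℕ) (x : List Bool) : Bool :=
  B (q2 x (wsOf B ℓ (List.replicate ((x.length + 2) ^ r) ())))

theorem PTime.findW {B : Lang} {u l : γ → List Unit} (hl : PTime (join O B) l)
    (hu : PTime (join O B) u) : PTime (join O B) (fun a => CKP.findW B (l a) (u a)) := by
  unfold CKP.findW
  refine PTime.gfind (g := fun a t => B (q1 (u a) t)) hl ?_
  refine PTime.askR ?_
  exact PTime.enc ((PTime.const D.nil).consD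
    ((PTime.code (hu.comp PTime.id.fst)).consD (PTime.code PTime.id.snd)))

theorem tred_ptime {B : Lang} {ℓ : ℕ → ℕ} (hl : UPoly O ℓ) (r : ℕ) :
    PTime (join O B) (tred B ℓ r) := by
  have hl' : UPoly (join O B) ℓ := PTime.lift hl
  unfold tred
  refine PTime.askR ?_
  unfold q2 wsOf
  refine PTime.enc ((PTime.const (D.cons .nil .nil)).consD
    ((PTime.id (α := List Bool)).code.consD (PTime.code ?_)))
  refine PTime.map (f := fun _ u => CKP.findW B (List.replicate (ℓ u.length) ()) u)
    (PTime.rangeU (((((UPoly.id).add (UPoly.const 2)).pow r)).comp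
      (PTime.id (α := List Bool)))) ?_
  exact PTime.findW (hl'.comp PTime.id.snd) PTime.id.snd

theorem ent_map_range (g : ℕ → Bool × ℕ) (N i : ℕ) (hi : i < N) :
    ent ((List.range N).map g) i = g i := by
  unfold ent
  simp [List.getD_eq_getElem?_getD, hi]

/-- size of the last query -/
theorem exists_kbound {ℓ : ℕ → ℕ} (hl : UPoly O ℓ) :
    ∃ k, ∀ (x : List Bool) (ws : List (Bool × ℕ)), x.length ≤ ws.length →
      (∀ i < ws.length, (ent ws i).2 < 2 ^ ℓ i) → (q2 x ws).length ≤ (ws.length + 2) ^ k := by
  obtain ⟨P, hP⟩ := hl.bound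
  obtain ⟨k, hk⟩ := exists_pow (Polynomial.X * (4 * P + 6) + 4 * Polynomial.X + 10)
  refine ⟨k, fun x ws hx hws => le_trans ?_ (hk ws.length)⟩
  unfold q2
  rw [D.enc_length]
  have h1 : (D.cons (.cons .nil .nil) (.cons (toD x) (toD ws))).size =
      3 + ((toD x).size + sz ws + 1) + 1 := rfl
  rw [h1]
  have h2 := size_bits x
  have h3 : sz ws ≤ ws.length * (4 * P.eval ws.length + 5 + 1) + 1 := by
    refine sz_list_le ws ?_
    intro c hc
    obtain ⟨i, hi, rfl⟩ := List.getElem_of_mem hc
    have h4 := hws i hi
    have h5 : ent ws i = ws[i] := by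
      unfold ent
      rw [List.getD_eq_getElem?_getD, List.getElem?_eq_getElem hi, Option.getD_some]
    rw [h5] at h4
    have h6 := sz_nat_le_of_lt h4
    have h7 := (num_bool_sz ws[i].1).2
    have h8 : sz ws[i] = sz ws[i].1 + sz ws[i].2 + 1 := rfl
    have h9 := (hP i).trans (poly_mono P hi.le)
    omega
  simp only [Polynomial.eval_add, Polynomial.eval_mul, Polynomial.eval_ofNat, Polynomial.eval_X]
  have h4 : ws.length * (4 * P.eval ws.length + 5 + 1) =
    ws.length * (4 * P.eval ws.length + 6) := rfl
  omega

theorem CL_complete {W : ℕ → ℕ → Bool} {ℓ : ℕ → ℕ} (h : Ver O W ℓ) :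
    ∃ k, ∀ r, 1 ≤ r → TuringComplete O (CL O W r k) := by
  obtain ⟨k, hk⟩ := exists_kbound h.hl
  refine ⟨k, fun r hr => turingComplete_of (CL_inNP h r k) ?_⟩
  refine (tred_ptime (B := CL O W r k) h.hl r).of_eq fun x => ?_
  have hws : wsOf (CL O W r k) ℓ (List.replicate ((x.length + 2) ^ r) ()) =
      (List.range ((x.length + 2) ^ r)).map fun i =>
        findW (CL O W r k) (List.replicate (ℓ i) ()) (List.replicate i ()) := by
    unfold wsOf
    rw [rangeU_replicate, List.map_map]
    congr 1
    funext i
    simp
  have hspec : ∀ i, _ := fun i => findW_spec (B := CL O W r k) (W := W) (L := ℓ i)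
    (List.replicate i ()) (fun t => CL_q1 _ t) (fun v hv => h.hb i v (by simpa using hv))
  set N := (x.length + 2) ^ r with hN
  set ws := (List.range N).map fun i =>
    findW (CL O W r k) (List.replicate (ℓ i) ()) (List.replicate i ()) with hwsd
  have hlen : ws.length = N := by rw [hwsd, List.length_map, List.length_range]
  have hent : ∀ i < N, ent ws i =
      findW (CL O W r k) (List.replicate (ℓ i) ()) (List.replicate i ()) :=
    fun i hi => ent_map_range _ N i hi
  have hxN : x.length + 2 ≤ N := by
    rw [hN]
    exact Nat.le_self_pow (by omega) _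
  have hvalid : valid W r k (q2 x ws) = true := by
    unfold valid
    rw [xx_q2, wss_q2, hlen, Bool.and_eq_true, Bool.and_eq_true, decide_eq_true_eq,
      decide_eq_true_eq]
    refine ⟨⟨Nat.pow_le_pow_left (by omega) r, ?_⟩, ?_⟩
    · have := hk x ws (by omega) (fun i hi => by
        rw [hent i (by omega)]
        exact (hspec i).2.2)
      rwa [hlen] at this
    · rw [checkW_iff]
      intro i hi h1
      rw [hlen] at hi
      rw [hent i hi] at h1 ⊢
      simpa using ((hspec i).2.1 h1).1
  have hguard : ∀ v, ¬ guardW W ws v = true := by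
    intro v hv
    obtain ⟨i, hi, h1, h2⟩ := guardW_iff.mp hv
    rw [hlen] at hi
    rw [hent i hi] at h1
    have h3 := (hspec i).1.mpr ⟨v, by rw [List.length_replicate]; exact h2⟩
    rcases h1 with h1 | h1
    · rw [h3] at h1; simp at h1
    · have h4 := ((hspec i).2.1 h3).2 v h1
      rw [List.length_replicate] at h4
      exact h4 h2
  have hfin : CL O W r k (q2 x ws) = true ↔ UK O x = true := by
    rw [CL_iff]
    unfold CLP
    rw [typ_q2, xx_q2, wss_q2]
    constructor
    · rintro (⟨h1, _⟩ | ⟨_, _, h1 | ⟨v, h1⟩⟩)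
      · simp at h1
      · exact h1
      · exact absurd h1 (hguard v)
    · intro h1
      exact Or.inr ⟨rfl, hvalid, Or.inl h1⟩
  show tred (CL O W r k) ℓ r x = UK O x
  unfold tred
  rw [hws, Bool.eq_iff_iff]
  exact hfin

end Pool.Agent.CKP
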