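import Pool.Agent.Lib_helper74.NF.Expo
import Pool.Agent.Lib_helper74.NF.Classes

/-! The two solvers (from completeness, and from completeness under honest reductions). -/

set_option autoImplicit false
set_option linter.unusedSectionVars false

namespace Pool.Agent.CKP

open Pool.Agent.CK

variable {O : Lang} {W : ℕ → ℕ → Bool} {ℓ : ℕ → ℕ}
variable {α β γ δ : Type} [ToD α] [ToD β] [ToD γ] [ToD δ]

/-! ### verifiers from machines -/

/-- `v` codes a witness accepted by the program `c` on the input `x m`, within `t m` steps -/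
def WG (O : Lang) (c : Cmd) (x : ℕ → List Bool) (t : ℕ → ℕ) (m v : ℕ) : Bool :=
  !decide (v = 0) && (decide (v.bits.dropLast.length ≤ t m) &&
    accU O (cmdD c) (x m) v.bits.dropLast (List.replicate (t m) ()))

theorem WG_iff {c : Cmd} {x : ℕ → List Bool} {t : ℕ → ℕ} {m v : ℕ} :
    WG O c x t m v = true ↔ v ≠ 0 ∧ v.bits.dropLast.length ≤ t m ∧
      Accepts O c (x m) v.bits.dropLast (t m) := by
  unfold WG
  simp only [Bool.and_eq_true, Bool.not_eq_true', decide_eq_false_iff_not, decide_eq_true_eq]
  rw [accU_iff, List.length_replicate]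

theorem WG_ver (c : Cmd) {x : ℕ → List Bool} {t : ℕ → ℕ}
    (hx : PTime O (fun u : List Unit => x u.length)) (ht : UPoly O t) :
    Ver O (WG O c x t) (fun m => t m + 1) := by
  refine ⟨?_, ht.add (UPoly.const 1), ?_⟩
  · have h1 : PTime O (fun p : List Unit × ℕ => p.2.bits.dropLast) :=
      PTime.dropLast (PTime.bits PTime.id.snd)
    have h2 : PTime O (fun p : List Unit × ℕ => List.replicate (t p.1.length) ()) :=
      ht.comp PTime.id.fst
    exact (PTime.isZero PTime.id.snd).not.and ((PTime.nat_le h1.length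
      ((PTime.length h2).of_eq fun _ => List.length_replicate ..)).and
      (PTime.accU (PTime.const (cmdD c)) (hx.comp PTime.id.fst) h1 h2))
  · intro m v hv
    obtain ⟨_, h2, _⟩ := WG_iff.mp hv
    rw [List.length_dropLast] at h2
    have h3 : v.size ≤ t m + 1 := by
      rw [← Nat.size_eq_bits_len]
      omega
    exact Nat.size_le.mp h3

theorem WG_exists {c : Cmd} {x : ℕ → List Bool} {t : ℕ → ℕ} {m : ℕ} :
    (∃ v, WG O c x t m v = true) ↔ ∃ y : List Bool, y.length ≤ t m ∧ Accepts O c (x m) y (t m) := by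
  constructor
  · rintro ⟨v, hv⟩
    obtain ⟨_, h2, h3⟩ := WG_iff.mp hv
    exact ⟨_, h2, h3⟩
  · rintro ⟨y, hy, hacc⟩
    refine ⟨ofBits (y ++ [true]), WG_iff.mpr ?_⟩
    rw [bits_ofBits_snoc, List.dropLast_concat]
    refine ⟨?_, hy, hacc⟩
    intro h0
    have h1 := bits_ofBits_snoc y
    rw [h0] at h1
    simp at h1

/-! ### roots -/

/-- about the `r`-th root of `n`, plus one -/
def rt (r n : ℕ) : ℕ := ((List.range (n + 1)).filter fun j => decide (j ^ r ≤ n)).length

theorem rt_ge {r n j : ℕ} (hr : 1 ≤ r) (h : j ^ r ≤ n) : j + 1 ≤ rt r n := by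
  have h1 : j ≤ j ^ r := Nat.le_self_pow (by omega) j
  have hsub : (List.range (j + 1)).Sublist ((List.range (n + 1)).filter
      fun j => decide (j ^ r ≤ n)) := by
    have h2 : (List.range (j + 1)) = (List.range (j + 1)).filter fun j => decide (j ^ r ≤ n) := by
      symm
      rw [List.filter_eq_self]
      intro i hi
      rw [List.mem_range] at hi
      rw [decide_eq_true_eq]
      exact (Nat.pow_le_pow_left (by omega) r).trans h
    rw [h2]
    refine List.Sublist.filter _ ?_
    exact List.range_sublist.mpr (by omega)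
  have := hsub.length_le
  rw [List.length_range] at this
  exact this

theorem rt_le {r n : ℕ} (hr : 1 ≤ r) : (rt r n : ℝ) ≤ (n : ℝ) ^ (1 / (r : ℝ)) + 1 := by
  set m := ⌊(n : ℝ) ^ (1 / (r : ℝ))⌋₊ with hm
  have hr0 : (r : ℝ) ≠ 0 := by
    have : (0 : ℝ) < r := by exact_mod_cast (by omega : 0 < r)
    exact this.ne'
  have h1 : rt r n ≤ m + 1 := by
    unfold rt
    have hnd : ((List.range (n + 1)).filter fun j => decide (j ^ r ≤ n)).Nodup :=
      List.nodup_range.filter _
    have hss : ((List.range (n + 1)).filter fun j => decide (j ^ r ≤ n)) ⊆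
        List.range (m + 1) := by
      intro j hj
      obtain ⟨_, hj2⟩ := List.mem_filter.mp hj
      rw [decide_eq_true_eq] at hj2
      rw [List.mem_range, Nat.lt_succ_iff, hm]
      refine Nat.le_floor ?_
      have h2 : ((j : ℝ) ^ r) ≤ n := by exact_mod_cast hj2
      have h3 : (j : ℝ) = ((j : ℝ) ^ r) ^ (1 / (r : ℝ)) := by
        rw [← Real.rpow_natCast, ← Real.rpow_mul (by positivity), mul_one_div_cancel hr0,
          Real.rpow_one]
      rw [h3]
      exact Real.rpow_le_rpow (by positivity) h2 (by positivity)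
    have := (List.subperm_of_subset hnd hss).length_le
    rw [List.length_range] at this
    exact this
  have h2 : ((m : ℕ) : ℝ) ≤ (n : ℝ) ^ (1 / (r : ℝ)) := Nat.floor_le (by positivity)
  have h3 : (rt r n : ℝ) ≤ (m : ℝ) + 1 := by exact_mod_cast h1
  linarith

theorem rt_upoly (r : ℕ) : UPoly O (rt r) := by
  unfold UPoly
  have h : PTime O (fun u : List Unit => ulen ((rangeU (() :: u)).filter
      fun v => decide (v.length ^ r ≤ u.length))) := by
    refine PTime.ulen (PTime.filter (f := fun (u v : List Unit) => decide (v.length ^ r ≤ u.length))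
      (PTime.rangeU (PTime.cons (PTime.const ()) PTime.id)) ?_)
    exact PTime.nat_le (PTime.npow PTime.id.snd (fun n => n ^ r) ((UPoly.id).pow r))
      (PTime.length PTime.id.fst)
  refine h.of_eq fun u => ?_
  rw [ulen_eq]
  congr 1
  have h1 : (() :: u) = List.replicate (u.length + 1) () := units_eq _
  rw [h1, rangeU_replicate, List.filter_map, List.length_map]
  unfold rt
  congr 2
  funext j
  simp

/-! ### colour bound -/

/-- size of the instances of the search -/
theorem zc_size {n i : List Unit} {a U : ℕ} {L : ℕ} (pd : List Unit) (hi : i.length ≤ L)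
    (ha : a < 2 ^ L) (hU : U ≤ 2 ^ L) :
    (zc n i a U pd).length ≤ 2 * n.length + 10 * L + 2 * pd.length + 20 := by
  unfold zc
  rw [D.enc_length]
  have h1 : (D.cons (toD n) (.cons (toD i) (.cons (toD a) (.cons (toD U) (toD pd))))).size =
      sz n + (sz i + (sz a + (sz U + sz pd + 1) + 1) + 1) + 1 := rfl
  rw [h1, sz_units, sz_units, sz_units]
  have h2 := sz_nat_le_of_lt ha
  have h3 : U < 2 ^ (L + 1) := by rw [pow_succ]; have : 0 < 2 ^ L := by positivity
                                  omega
  have h4 := sz_nat_le_of_lt h3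
  omega

theorem zc_pad_lt (n i : List Unit) (a U : ℕ) (pd : List Unit) :
    pd.length < (zc n i a U pd).length := by
  unfold zc
  rw [D.enc_length]
  have h1 : (D.cons (toD n) (.cons (toD i) (.cons (toD a) (.cons (toD U) (toD pd))))).size =
      sz n + (sz i + (sz a + (sz U + sz pd + 1) + 1) + 1) + 1 := rfl
  rw [h1, sz_units pd]
  omega

theorem exists_colB (hver : Ver O W ℓ) {f : List Bool → List Bool} (hf : PTime O f)
    {pad : ℕ → ℕ} (hpad : UPoly O pad) : ∃ M : ℕ → ℕ, UPoly O M ∧ ColB W ℓ pad M f := by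
  obtain ⟨P, hP⟩ := hf.size_le
  refine ⟨fun n => 3 * P.eval (4 * (2 * n + 10 * ℓ n + 2 * pad n + 20) + 1) + 2, ?_, ?_⟩
  · have h1 : UPoly O (fun n => 4 * (2 * n + 10 * ℓ n + 2 * pad n + 20) + 1) :=
      ((UPoly.const 4).mul (((((UPoly.const 2).mul UPoly.id).add ((UPoly.const 10).mul
        hver.hl)).add ((UPoly.const 2).mul hpad)).add (UPoly.const 20))).add (UPoly.const 1)
    have h2 : UPoly O (fun n => P.eval (4 * (2 * n + 10 * ℓ n + 2 * pad n + 20) + 1)) := by
      unfold UPoly
      refine (PTime.comp (g := fun u : List Unit => List.replicate (P.eval u.length) ())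
        (UPoly.poly P) h1).of_eq fun u => ?_
      rw [List.length_replicate]
    exact ((UPoly.const 3).mul h2).add (UPoly.const 2)
  · intro n i a U hi ha hU
    have h1 := colr_le (f (zc n i a U (List.replicate (pad n.length) ())))
    have h2 := length_le_sz (f (zc n i a U (List.replicate (pad n.length) ())))
    have h3 := hP (zc n i a U (List.replicate (pad n.length) ()))
    have h4 : sz (zc n i a U (List.replicate (pad n.length) ())) ≤
        4 * (2 * n.length + 10 * ℓ n.length + 2 * pad n.length + 20) + 1 := by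
      have g1 := size_bits (zc n i a U (List.replicate (pad n.length) ()))
      have g2 := zc_size (n := n) (List.replicate (pad n.length) ()) hi ha hU
      rw [List.length_replicate] at g2
      have g3 : sz (zc n i a U (List.replicate (pad n.length) ())) =
        (toD (zc n i a U (List.replicate (pad n.length) ()))).size := rfl
      omega
    have h5 := poly_mono P h4
    show _ < 3 * P.eval (4 * (2 * n.length + 10 * ℓ n.length + 2 * pad n.length + 20) + 1) + 2
    omega

/-! ### the solvers -/

/-- Solver from completeness. -/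
theorem solver_sub (hneg : ∀ C, TuringComplete O C → ManyOneComplete O C) (hver : Ver O W ℓ)
    (r : ℕ) (hr : 1 ≤ r) :
    ∃ S : List Unit → List Unit → Bool × ℕ,
      PTime O (fun p : List Unit × List Unit => S p.1 p.2) ∧
      ∀ (n : ℕ) (N : List Unit), 2 ^ rt r n ≤ N.length →
        LeastSpec W n (S N (List.replicate n ())) := by
  obtain ⟨k, hk⟩ := CL_complete hver
  obtain ⟨f, hfp, hf⟩ := (hneg _ (hk r hr)).2 (ZL W) (ZL_inNP hver)
  have hfP := ptime_of_inFP hfp
  have hpad : UPoly O (fun _ => 0) := UPoly.const 0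
  obtain ⟨M, hM, hcol⟩ := exists_colB hver hfP hpad
  refine ⟨fun N n => solve O W ℓ (fun _ => 0) M r k f N n,
    PTime.solve hver hfP hpad hM PTime.id.fst PTime.id.snd, fun n N hN => ?_⟩
  refine solve_spec hver hf hcol N n ?_ n le_rfl
  intro n' i a U hn' _ hv hw
  refine le_trans (Nat.pow_le_pow_right (by norm_num) ?_) hN
  refine rt_ge hr ?_
  unfold valid at hv
  rw [Bool.and_eq_true, Bool.and_eq_true, decide_eq_true_eq] at hv
  omega

/-- Solver from completeness under honest reductions. -/
theorem solver_honest (hneg : ∀ C, TuringComplete O C → HonestComplete O C)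
    (hver : Ver O W ℓ) :
    ∃ S : List Unit → Bool × ℕ, PTime O S ∧ ∀ n : ℕ,
      LeastSpec W n (S (List.replicate n ())) := by
  obtain ⟨k, hk⟩ := CL_complete hver
  obtain ⟨f, hfp, ⟨j, hj⟩, hf⟩ := (hneg _ (hk 1 le_rfl)).2 (ZL W) (ZL_inNP hver)
  have hfP := ptime_of_inFP hfp
  have hpad : UPoly O (fun n => ((n + 2) ^ k + 2) ^ j) :=
    ((UPoly.tb k).add (UPoly.const 2)).pow j
  obtain ⟨M, hM, hcol⟩ := exists_colB hver hfP hpad
  refine ⟨fun n => solve O W ℓ (fun n => ((n + 2) ^ k + 2) ^ j) M 1 k f [] n,
    PTime.solve hver hfP hpad hM (PTime.const []) PTime.id, fun n => ?_⟩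
  refine solve_spec hver hf hcol [] n ?_ n le_rfl
  intro n' i a U hn' _ hv hw
  exfalso
  unfold valid at hv
  rw [Bool.and_eq_true, Bool.and_eq_true, decide_eq_true_eq, decide_eq_true_eq] at hv
  obtain ⟨⟨_, h1⟩, _⟩ := hv
  have h2 := hj (zc (List.replicate n' ()) i a U (List.replicate (((n' + 2) ^ k + 2) ^ j) ()))
  have h3 := zc_pad_lt (List.replicate n' ()) i a U (List.replicate (((n' + 2) ^ k + 2) ^ j) ())
  rw [List.length_replicate] at h3
  have h4 : ((f (zc (List.replicate n' ()) i a U
      (List.replicate (((n' + 2) ^ k + 2) ^ j) ()))).length + 2) ^ j ≤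
      ((n' + 2) ^ k + 2) ^ j := by
    refine Nat.pow_le_pow_left ?_ j
    have h5 := h1.trans (Nat.pow_le_pow_left (show _ + 2 ≤ n' + 2 by omega) k)
    omega
  omega

end Pool.Agent.CKP
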