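import Pool.Agent.Lib_helper74.NF.Hard

/-! The pruned search and its correctness. -/

set_option autoImplicit false
set_option linter.unusedSectionVars false

namespace Pool.Agent.CKP

open Pool.Agent.CK

variable {O : Lang}

/-- instance: some witness `v < U` for `n` satisfies `v / 2 ^ i = a` -/
def zc (n i : List Unit) (a U : ℕ) (pad : List Unit) : List Bool :=
  (D.cons (toD n) (.cons (toD i) (.cons (toD a) (.cons (toD U) (toD pad))))).enc

/-- number, level and node of an instance -/
def zn (w : List Bool) : List D := toList (dec w).car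
def zi (w : List Bool) : List D := toList (dec w).cdr.car
def za (w : List Bool) : ℕ := ofBits (toBits (dec w).cdr.cdr.car)
def zU (w : List Bool) : ℕ := ofBits (toBits (dec w).cdr.cdr.cdr.car)

theorem zn_zc (n i : List Unit) (a U : ℕ) (pad : List Unit) :
    (zn (zc n i a U pad)).length = n.length := by
  unfold zn zc
  rw [dec_enc]
  show (toList (toD n)).length = _
  rw [toList_toD, List.length_map]

theorem zi_zc (n i : List Unit) (a U : ℕ) (pad : List Unit) :
    (zi (zc n i a U pad)).length = i.length := by
  unfold zi zc
  rw [dec_enc]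
  show (toList (toD i)).length = _
  rw [toList_toD, List.length_map]

theorem za_zc (n i : List Unit) (a U : ℕ) (pad : List Unit) : za (zc n i a U pad) = a := by
  unfold za zc
  rw [dec_enc]
  show ofBits (toBits (toD a)) = a
  rw [toBits_toD_nat, ofBits_bits]

theorem zU_zc (n i : List Unit) (a U : ℕ) (pad : List Unit) : zU (zc n i a U pad) = U := by
  unfold zU zc
  rw [dec_enc]
  show ofBits (toBits (toD U)) = U
  rw [toBits_toD_nat, ofBits_bits]

open Classical in
/-- the language of these instances -/
noncomputable def ZL (W : ℕ → ℕ → Bool) : Lang := fun w =>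
  decide (∃ v, v / 2 ^ (zi w).length = za w ∧ v < zU w ∧ W (zn w).length v = true)

theorem ZL_zc {W : ℕ → ℕ → Bool} (n i : List Unit) (a U : ℕ) (pad : List Unit) :
    ZL W (zc n i a U pad) = true ↔
      ∃ v, v / 2 ^ i.length = a ∧ v < U ∧ W n.length v = true := by
  simp only [ZL, decide_eq_true_eq]
  rw [zn_zc, zi_zc, za_zc, zU_zc]

theorem ZL_inNP {W : ℕ → ℕ → Bool} {ℓ : ℕ → ℕ} (h : Ver O W ℓ) : InNP O (ZL W) := by
  obtain ⟨P, hP⟩ := h.hl.bound
  have hzn : ∀ w : List Bool, (zn w).length ≤ 3 * w.length + 1 := fun w =>
    ((length_toList_le _).trans (size_car_le _)).trans (size_dec_le w)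
  refine inNP_of (V := fun p => decide (ushr (ulen (zi p.1)) (ofBits p.2) = za p.1) &&
      (decide (ofBits p.2 < zU p.1) && W (zn p.1).length (ofBits p.2))) ?_
    (B := fun n => P.eval (3 * n + 1)) ?_ ?_ ?_
  · have h1 : PTime O (fun p : List Bool × List Bool => dec p.1) := PTime.dec PTime.id.fst
    have h2 : PTime O (fun p : List Bool × List Bool => ofBits p.2) := PTime.ofBits PTime.id.snd
    exact (PTime.nat_eq (PTime.ushr (PTime.ulen h1.cdr.car.toList) h2)
      h1.cdr.cdr.car.toBits.ofBits).and ((PTime.nat_lt h2
        h1.cdr.cdr.cdr.car.toBits.ofBits).and (h.ptime h1.car.toList h2))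
  · have := UPoly.poly (O := O) (P.comp (3 * Polynomial.X + 1))
    simpa [Polynomial.eval_comp] using this
  · intro w hw
    simp only [ZL, decide_eq_true_eq] at hw
    obtain ⟨v, hv, hU, hWv⟩ := hw
    refine ⟨v.bits, ?_, ?_⟩
    · have h1 := bits_length_le (h.hb _ v hWv)
      exact h1.trans ((hP _).trans (poly_mono P (hzn w)))
    · simp only [Bool.and_eq_true, decide_eq_true_eq]
      rw [ofBits_bits, ushr_eq, ulen_eq, List.length_replicate]
      exact ⟨hv, hU, hWv⟩
  · intro w y hy
    simp only [Bool.and_eq_true, decide_eq_true_eq] at hy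
    rw [ushr_eq, ulen_eq, List.length_replicate] at hy
    simp only [ZL, decide_eq_true_eq]
    exact ⟨_, hy⟩

/-! ### the search -/

/-- exhaustive search for a witness of the universal language -/
def brute (O : Lang) (x : List Bool) (N : List Unit) : ℕ × Bool :=
  N.foldl (fun s _ => (s.1 + 1, s.2 || VU O (x, s.1.bits.dropLast))) (0, false)

/-- some given witness is not the least one according to the table -/
def guardT (ws T : List (Bool × ℕ)) : Bool :=
  (rangeU (ulen ws)).any fun u => (ent T u.length).1 &&
    (!(ent ws u.length).1 || decide ((ent T u.length).2 < (ent ws u.length).2))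

/-- classification of a node: `(keep, only)`, colour, threshold, node -/
abbrev Res := (Bool × Bool) × ℕ × ℕ × ℕ

section search

variable (O : Lang) (W : ℕ → ℕ → Bool) (ℓ pad M : ℕ → ℕ) (r k : ℕ) (f : List Bool → List Bool)

/-- classification of the image `q` of the node `a` -/
def clsQ (T : List (Bool × ℕ)) (N n i : List Unit) (a U : ℕ) (q : List Bool) : Res :=
  if typ q = true then
    if valid W r k q = true then
      if decide (n.length < (wss q).length) = true then
        if ((ent (wss q) n.length).1 && decide ((ent (wss q) n.length).2 < U)) = true then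
          ((true, true), 0, 0, ushr i (ent (wss q) n.length).2)
        else ((true, true), 0, 0, a)
      else if ((brute O (xx q) N).2 || guardT (wss q) T) = true then ((true, true), 0, 0, a)
      else ((false, false), 0, 0, 0)
    else ((false, false), 0, 0, 0)
  else ((true, false), (colr q).length, thr q, a)

/-- classification of the node `a` on level `i` -/
def cls (T : List (Bool × ℕ)) (N n i : List Unit) (a U : ℕ) : Res :=
  clsQ O W r k T N n i a U (f (zc n i a U (List.replicate (pad n.length) ())))

/-- one step of the maximum -/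
def bstp (m : ℕ) (s : Bool × ℕ × ℕ) (x : Res) : Bool × ℕ × ℕ :=
  if (decide (x.2.1 = m) && (x.1.1 && !x.1.2)) = true then
    (if (!s.1 || decide (s.2.1 ≤ x.2.2.1)) = true then (true, x.2.2.1, x.2.2.2) else s)
  else s

/-- the node of colour `m` with the largest threshold -/
def best (R : List Res) (m : ℕ) : List ℕ :=
  let s := R.foldl (fun s x => bstp m s x) (false, 0, 0)
  if s.1 = true then [s.2.2] else []

/-- the pruned list of nodes -/
def prune (Mn : List Unit) (R : List Res) : List ℕ :=
  lcase (R.filter fun x => x.1.1 && x.1.2) ((rangeU Mn).flatMap fun u => best R u.length)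
    fun x _ => [x.2.2.2]

/-- children of the nodes -/
def children (L : List ℕ) : List ℕ := L.flatMap fun a => [Nat.bit false a, Nat.bit true a]

/-- one level of the search -/
def level (T : List (Bool × ℕ)) (N n : List Unit) (U : ℕ) (s : List Unit × List ℕ) :
    List Unit × List ℕ :=
  (s.1.tail, prune (List.replicate (M n.length) ())
    ((children s.2).map (fun a => cls O W pad r k f T N n s.1.tail a U)))

/-- some node is a witness below `U` -/
def hit (n : List Unit) (U : ℕ) (L : List ℕ) : Bool :=
  L.any fun a => decide (a < U) && W n.length a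

/-- the search for a witness of `n` below `U` -/
def search (T : List (Bool × ℕ)) (N n : List Unit) (U : ℕ) : Bool :=
  hit W n U ((List.replicate (ℓ n.length) ()).foldl
    (fun s _ => level O W pad M r k f T N n U s) (List.replicate (ℓ n.length) (), [0])).2

/-- the least witness for `n` -/
def least (T : List (Bool × ℕ)) (N n : List Unit) : Bool × ℕ :=
  gfind (search O W ℓ pad M r k f T N n) (List.replicate (ℓ n.length) ())

/-- the table of the least witnesses for `0, ..., |n| - 1` -/
def table (N n : List Unit) : List (Bool × ℕ) :=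
  n.foldl (fun T _ => T ++ [least O W ℓ pad M r k f T N (ulen T)]) []

/-- the result for `n` -/
def solve (N n : List Unit) : Bool × ℕ := least O W ℓ pad M r k f (table O W ℓ pad M r k f N n) N n

end search

/-! ### correctness -/

theorem brute_iff {x : List Bool} {N : List Unit} :
    (brute O x N).2 = true ↔ ∃ j < N.length, VU O (x, j.bits.dropLast) = true := by
  have key : ∀ (N : List Unit) (s : ℕ) (b : Bool),
      (N.foldl (fun s _ => (s.1 + 1, s.2 || VU O (x, s.1.bits.dropLast))) (s, b)).2 = true ↔
        b = true ∨ ∃ j, s ≤ j ∧ j < s + N.length ∧ VU O (x, j.bits.dropLast) = true := by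
    intro N
    induction N with
    | nil =>
      intro s b
      simp only [List.foldl_nil, List.length_nil]
      constructor
      · exact fun h => Or.inl h
      · rintro (h | ⟨j, h1, h2, _⟩)
        · exact h
        · omega
    | cons a t ih =>
      intro s b
      rw [List.foldl_cons, ih, List.length_cons]
      simp only [Bool.or_eq_true]
      constructor
      · rintro ((h | h) | ⟨j, h1, h2, h3⟩)
        · exact Or.inl h
        · exact Or.inr ⟨s, le_rfl, by omega, h⟩
        · exact Or.inr ⟨j, by omega, by omega, h3⟩
      · rintro (h | ⟨j, h1, h2, h3⟩)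
        · exact Or.inl (Or.inl h)
        · rcases Nat.eq_or_lt_of_le h1 with h4 | h4
          · subst h4
            exact Or.inl (Or.inr h3)
          · exact Or.inr ⟨j, by omega, by omega, h3⟩
  unfold brute
  rw [key]
  simp

theorem brute_eq {x : List Bool} {N : List Unit} (hN : 2 ^ (x.length + 1) ≤ N.length) :
    (brute O x N).2 = true ↔ UK O x = true := by
  rw [brute_iff, UK_iff]
  constructor
  · rintro ⟨j, _, h⟩
    exact (UK_iff x).mp (UK_of_VU h)
  · rintro ⟨y, hy, h⟩
    refine ⟨ofBits (y ++ [true]), ?_, ?_⟩
    · have h1 := ofBits_lt (y ++ [true])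
      rw [List.length_append, List.length_singleton] at h1
      have h2 : 2 ^ (y.length + 1) ≤ 2 ^ (x.length + 1) :=
        Nat.pow_le_pow_right (by norm_num) (by omega)
      omega
    · rw [bits_ofBits_snoc, List.dropLast_concat]
      exact h

theorem guardT_iff {ws T : List (Bool × ℕ)} :
    guardT ws T = true ↔ ∃ i < ws.length, (ent T i).1 = true ∧
      ((ent ws i).1 = false ∨ (ent T i).2 < (ent ws i).2) := by
  unfold guardT
  rw [ulen_eq, rangeU_replicate, List.any_map, List.any_eq_true]
  simp only [List.mem_range, Function.comp_apply, List.length_replicate, Bool.and_eq_true,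
    Bool.or_eq_true, Bool.not_eq_true', decide_eq_true_eq]

theorem mem_children {L : List ℕ} {b : ℕ} : b ∈ children L ↔ b / 2 ∈ L := by
  unfold children
  rw [List.mem_flatMap]
  constructor
  · rintro ⟨a, ha, hb⟩
    simp only [List.mem_cons, List.not_mem_nil, or_false] at hb
    rcases hb with rfl | rfl
    · rw [Nat.bit_val]
      simpa using ha
    · rw [Nat.bit_val]
      have : (2 * a + (true).toNat) / 2 = a := by simp only [Bool.toNat_true]; omega
      rwa [this]
  · intro hb
    refine ⟨b / 2, hb, ?_⟩
    simp only [List.mem_cons, List.not_mem_nil, or_false, Nat.bit_val, Bool.toNat_false,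
      Bool.toNat_true]
    omega

/-- the maximum of one colour -/
theorem best_spec (R : List Res) (m : ℕ) :
    (∀ a ∈ best R m, ∃ x ∈ R, x.2.1 = m ∧ x.1 = (true, false) ∧ x.2.2.2 = a ∧
      ∀ y ∈ R, y.2.1 = m → y.1 = (true, false) → y.2.2.1 ≤ x.2.2.1) ∧
    ((∃ x ∈ R, x.2.1 = m ∧ x.1 = (true, false)) → best R m ≠ []) ∧
    (best R m).length ≤ 1 := by
  have key : ∀ (R R0 : List Res) (s : Bool × ℕ × ℕ),
      ((s.1 = false ∧ ∀ y ∈ R0, ¬ (y.2.1 = m ∧ y.1 = (true, false))) ∨
        (s.1 = true ∧ ∃ x ∈ R0, x.2.1 = m ∧ x.1 = (true, false) ∧ x.2.2 = s.2 ∧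
          ∀ y ∈ R0, y.2.1 = m → y.1 = (true, false) → y.2.2.1 ≤ x.2.2.1)) →
      (((R.foldl (fun s x => bstp m s x) s).1 = false ∧
          ∀ y ∈ R0 ++ R, ¬ (y.2.1 = m ∧ y.1 = (true, false))) ∨
        ((R.foldl (fun s x => bstp m s x) s).1 = true ∧ ∃ x ∈ R0 ++ R, x.2.1 = m ∧
          x.1 = (true, false) ∧ x.2.2 = (R.foldl (fun s x => bstp m s x) s).2 ∧
          ∀ y ∈ R0 ++ R, y.2.1 = m → y.1 = (true, false) → y.2.2.1 ≤ x.2.2.1)) := by
    intro R
    induction R with
    | nil => intro R0 s h; simpa using h
    | cons z R ih =>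
      intro R0 s h
      rw [List.foldl_cons]
      have := ih (R0 ++ [z]) (bstp m s z) ?_
      · simpa using this
      · have hz : ∀ b : Bool, (decide (z.2.1 = m) && (z.1.1 && !z.1.2)) = b →
            (b = true ↔ (z.2.1 = m ∧ z.1 = (true, false))) := by
          rintro b rfl
          obtain ⟨⟨z1, z2⟩, z3, z4, z5⟩ := z
          cases z1 <;> cases z2 <;> simp
        unfold bstp
        by_cases hc : (decide (z.2.1 = m) && (z.1.1 && !z.1.2)) = true
        · rw [if_pos hc]
          have hzc := (hz _ rfl).mp hc
          rcases h with ⟨h1, h2⟩ | ⟨h1, x, hx, h3, h4, h5, h6⟩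
          · rw [if_pos (by simp [h1])]
            refine Or.inr ⟨rfl, z, by simp, hzc.1, hzc.2, rfl, ?_⟩
            intro y hy hy1 hy2
            rcases List.mem_append.mp hy with hy | hy
            · exact absurd ⟨hy1, hy2⟩ (h2 y hy)
            · simp only [List.mem_singleton] at hy
              rw [hy]
          · by_cases hle : s.2.1 ≤ z.2.2.1
            · rw [if_pos (by simp [hle])]
              refine Or.inr ⟨rfl, z, by simp, hzc.1, hzc.2, rfl, ?_⟩
              intro y hy hy1 hy2
              rcases List.mem_append.mp hy with hy | hy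
              · have := h6 y hy hy1 hy2
                rw [h5] at this
                exact this.trans hle
              · simp only [List.mem_singleton] at hy
                rw [hy]
            · rw [if_neg (by simp [h1, hle])]
              refine Or.inr ⟨h1, x, by simp [hx], h3, h4, h5, ?_⟩
              intro y hy hy1 hy2
              rcases List.mem_append.mp hy with hy | hy
              · exact h6 y hy hy1 hy2
              · simp only [List.mem_singleton] at hy
                rw [hy, h5]
                omega
        · rw [if_neg hc]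
          have hzc : ¬ (z.2.1 = m ∧ z.1 = (true, false)) := fun h => hc ((hz _ rfl).mpr h)
          rcases h with ⟨h1, h2⟩ | ⟨h1, x, hx, h3, h4, h5, h6⟩
          · refine Or.inl ⟨h1, fun y hy => ?_⟩
            rcases List.mem_append.mp hy with hy | hy
            · exact h2 y hy
            · simp only [List.mem_singleton] at hy
              rw [hy]
              exact hzc
          · refine Or.inr ⟨h1, x, by simp [hx], h3, h4, h5, ?_⟩
            intro y hy hy1 hy2
            rcases List.mem_append.mp hy with hy | hy
            · exact h6 y hy hy1 hy2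
            · simp only [List.mem_singleton] at hy
              rw [hy] at hy1 hy2
              exact absurd ⟨hy1, hy2⟩ hzc
  have h := key R [] (false, 0, 0) (Or.inl ⟨rfl, by simp⟩)
  rw [List.nil_append] at h
  unfold best
  simp only
  rcases h with ⟨h1, h2⟩ | ⟨h1, x, hx, h3, h4, h5, h6⟩
  · rw [h1]
    simp only [Bool.false_eq_true, if_false]
    refine ⟨by simp, ?_, by simp⟩
    rintro ⟨x, hx, h3, h4⟩
    exact absurd ⟨h3, h4⟩ (h2 x hx)
  · rw [h1]
    simp only [if_true]
    refine ⟨?_, by simp, by simp⟩
    intro a ha
    simp only [List.mem_singleton] at ha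
    exact ⟨x, hx, h3, h4, by rw [ha, ← h5], h6⟩

theorem rangeU_flatMap {β : Type} (Mn : List Unit) (g : ℕ → List β) :
    ((rangeU Mn).flatMap fun u => g u.length) = (List.range Mn.length).flatMap g := by
  have h : Mn = List.replicate Mn.length () := by
    rw [← ulen_eq]
    unfold ulen
    induction Mn with
    | nil => rfl
    | cons a t ih => rw [List.map_cons, ← ih]
  rw [h, rangeU_replicate]
  simp [List.flatMap_map]

theorem prune_spec (Mn : List Unit) (R : List Res) :
    (∃ x ∈ R, x.1 = (true, true) ∧ prune Mn R = [x.2.2.2]) ∨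
    ((∀ x ∈ R, x.1 ≠ (true, true)) ∧
      prune Mn R = (List.range Mn.length).flatMap (best R)) := by
  unfold prune
  have hf : ∀ x : Res, (x.1.1 && x.1.2) = true ↔ x.1 = (true, true) := by
    intro x
    obtain ⟨⟨a, b⟩, c⟩ := x
    cases a <;> cases b <;> simp
  cases h : R.filter (fun x => x.1.1 && x.1.2) with
  | nil =>
    refine Or.inr ⟨?_, by rw [lcase_nil, rangeU_flatMap]⟩
    intro x hx hx1
    have : x ∈ R.filter (fun x => x.1.1 && x.1.2) :=
      List.mem_filter.mpr ⟨hx, (hf x).mpr hx1⟩
    rw [h] at this
    simp at this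
  | cons x t =>
    have : x ∈ R.filter (fun x => x.1.1 && x.1.2) := by rw [h]; simp
    obtain ⟨h1, h2⟩ := List.mem_filter.mp this
    exact Or.inl ⟨x, h1, (hf x).mp h2, by rw [lcase_cons]⟩

end Pool.Agent.CKP
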