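import Pool.Agent.Lib_helper74.NF.Search

/-! Correctness of the pruned search. -/

set_option autoImplicit false
set_option linter.unusedSectionVars false

namespace Pool.Agent.CKP

open Pool.Agent.CK

variable {O : Lang} {W : ℕ → ℕ → Bool} {ℓ pad M : ℕ → ℕ} {r k : ℕ} {f : List Bool → List Bool}

/-- the node `a` on level `i` contains a witness for `n` below `U` -/
def SN (W : ℕ → ℕ → Bool) (n i a U : ℕ) : Prop := ∃ v, v / 2 ^ i = a ∧ v < U ∧ W n v = true

/-- `e` is the least witness for `j` (or there is none) -/
def LeastSpec (W : ℕ → ℕ → Bool) (j : ℕ) (e : Bool × ℕ) : Prop :=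
  (e.1 = true ↔ ∃ v, W j v = true) ∧ (e.1 = true → W j e.2 = true ∧ ∀ v < e.2, ¬ W j v = true)

/-- specification of a classification -/
structure ClsSpec (W : ℕ → ℕ → Bool) (L n i a U : ℕ) (x : Res) : Prop where
  drop : x.1.1 = false → ¬ SN W n i a U
  only : x.1 = (true, true) → (∃ v < U, W n v = true) → SN W n i x.2.2.2 U
  col : x.1 = (true, false) → x.2.2.2 = a ∧ (SN W n i a U ↔ ∃ v < x.2.2.1, W x.2.1 v = true)
  small : x.1 = (true, true) → x.2.2.2 < 2 ^ (L - i)

theorem cls_spec (hver : Ver O W ℓ) (hf : ∀ w, ZL W w = CL O W r k (f w))
    (T : List (Bool × ℕ)) (N n i : List Unit) (a U : ℕ)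
    (hT : ∀ j < n.length, LeastSpec W j (ent T j))
    (hN : typ (f (zc n i a U (List.replicate (pad n.length) ()))) = true →
      valid W r k (f (zc n i a U (List.replicate (pad n.length) ()))) = true →
      (wss (f (zc n i a U (List.replicate (pad n.length) ())))).length ≤ n.length →
      2 ^ ((xx (f (zc n i a U (List.replicate (pad n.length) ())))).length + 1) ≤ N.length)
    (hi : i.length ≤ ℓ n.length) (ha : a < 2 ^ (ℓ n.length - i.length)) :
    ClsSpec W (ℓ n.length) n.length i.length a U (cls O W pad r k f T N n i a U) := by
  have hz : SN W n.length i.length a U ↔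
      CLP O W r k (f (zc n i a U (List.replicate (pad n.length) ()))) := by
    rw [← CL_iff, ← hf, ZL_zc]
    exact Iff.rfl
  unfold cls
  generalize f (zc n i a U (List.replicate (pad n.length) ())) = q at hz hN
  unfold clsQ
  by_cases ht : typ q = true
  · rw [if_pos ht]
    by_cases hv : valid W r k q = true
    · rw [if_pos hv]
      have hck : ∀ j < (wss q).length, (ent (wss q) j).1 = true →
          W j (ent (wss q) j).2 = true := by
        unfold valid at hv
        rw [Bool.and_eq_true] at hv
        exact checkW_iff.mp hv.2
      by_cases hl : n.length < (wss q).length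
      · rw [if_pos (by simpa using hl)]
        by_cases he : ((ent (wss q) n.length).1 && decide ((ent (wss q) n.length).2 < U)) = true
        · rw [if_pos he]
          rw [Bool.and_eq_true, decide_eq_true_eq] at he
          have hWn := hck n.length hl he.1
          refine ⟨by simp, fun _ _ => ?_, by simp, fun _ => ?_⟩
          · refine ⟨_, ?_, he.2, hWn⟩
            rw [ushr_eq]
          · simp only
            rw [ushr_eq]
            have h1 := hver.hb _ _ hWn
            apply Nat.div_lt_of_lt_mul
            rw [← pow_add]
            rwa [Nat.add_sub_cancel' hi]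
        · rw [if_neg he]
          refine ⟨by simp, fun _ hex => ?_, by simp, fun _ => ha⟩
          simp only
          rw [hz]
          obtain ⟨v, hvU, hWv⟩ := hex
          refine Or.inr ⟨ht, hv, Or.inr ⟨v, guardW_iff.mpr ⟨n.length, hl, ?_, hWv⟩⟩⟩
          rw [Bool.and_eq_true, decide_eq_true_eq] at he
          by_cases h0 : (ent (wss q) n.length).1 = true
          · right
            have : ¬ (ent (wss q) n.length).2 < U := fun h => he ⟨h0, h⟩
            omega
          · left
            simpa using h0
      · rw [if_neg (by simpa using hl)]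
        have hl' : (wss q).length ≤ n.length := by omega
        have hbr := brute_eq (O := O) (x := xx q) (N := N) (hN ht hv hl')
        have hg : guardT (wss q) T = true ↔ ∃ v, guardW W (wss q) v = true := by
          rw [guardT_iff]
          constructor
          · rintro ⟨j, hj, h1, h2⟩
            exact ⟨_, guardW_iff.mpr ⟨j, hj, h2, ((hT j (by omega)).2 h1).1⟩⟩
          · rintro ⟨v, hg⟩
            obtain ⟨j, hj, h1, h2⟩ := guardW_iff.mp hg
            have h3 := (hT j (by omega)).1.mpr ⟨v, h2⟩
            refine ⟨j, hj, h3, h1.imp_right fun h4 => ?_⟩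
            have h5 := ((hT j (by omega)).2 h3).2
            by_contra h6
            exact h5 v (by omega) h2
        have hiff : ((brute O (xx q) N).2 || guardT (wss q) T) = true ↔
            SN W n.length i.length a U := by
          rw [Bool.or_eq_true, hbr, hg, hz]
          constructor
          · exact fun h => Or.inr ⟨ht, hv, h⟩
          · rintro (⟨h1, _⟩ | ⟨_, _, h⟩)
            · rw [ht] at h1; simp at h1
            · exact h
        by_cases hc : ((brute O (xx q) N).2 || guardT (wss q) T) = true
        · rw [if_pos hc]
          exact ⟨by simp, fun _ _ => hiff.mp hc, by simp, fun _ => ha⟩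
        · rw [if_neg hc]
          exact ⟨fun _ h => hc (hiff.mpr h), by simp, by simp, by simp⟩
    · rw [if_neg hv]
      refine ⟨fun _ h => ?_, by simp, by simp, by simp⟩
      rcases hz.mp h with ⟨h1, _⟩ | ⟨_, h1, _⟩
      · rw [ht] at h1; simp at h1
      · exact hv h1
  · rw [if_neg ht]
    refine ⟨by simp, by simp, fun _ => ⟨rfl, ?_⟩, by simp⟩
    simp only
    rw [hz]
    constructor
    · rintro (⟨_, h1⟩ | ⟨h1, _⟩)
      · exact h1
      · exact absurd h1 ht
    · intro h1
      exact Or.inl ⟨by simpa using ht, h1⟩

/-- the colour of a node is below `M` -/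
def ColB (W : ℕ → ℕ → Bool) (ℓ pad M : ℕ → ℕ) (f : List Bool → List Bool) : Prop :=
  ∀ (n i : List Unit) (a U : ℕ), i.length ≤ ℓ n.length → a < 2 ^ ℓ n.length →
    U ≤ 2 ^ ℓ n.length →
    (colr (f (zc n i a U (List.replicate (pad n.length) ())))).length < M n.length

theorem cls_col (hM : ColB W ℓ pad M f) (T : List (Bool × ℕ)) (N n i : List Unit) (a U : ℕ)
    (hi : i.length ≤ ℓ n.length) (ha : a < 2 ^ ℓ n.length) (hU : U ≤ 2 ^ ℓ n.length)
    (h : (cls O W pad r k f T N n i a U).1 = (true, false)) :
    (cls O W pad r k f T N n i a U).2.1 < M n.length := by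
  have h1 := hM n i a U hi ha hU
  unfold cls at h ⊢
  generalize f (zc n i a U (List.replicate (pad n.length) ())) = q at h h1
  unfold clsQ at h ⊢
  by_cases ht : typ q = true
  · rw [if_pos ht] at h
    exfalso
    revert h
    split <;> [skip; simp]
    split <;> [skip; skip]
    · split <;> simp
    · split <;> simp
  · rw [if_neg ht]
    exact h1

/-- the invariant on the sizes of the nodes -/
def SInv (L Mn i : ℕ) (l : List ℕ) : Prop := (∀ a ∈ l, a < 2 ^ (L - i)) ∧ l.length ≤ Mn + 1

theorem level_size (hver : Ver O W ℓ) (T : List (Bool × ℕ)) (N n : List Unit) (U : ℕ)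
    (s : List Unit) (l : List ℕ) (hs : s ≠ []) (hsl : s.length ≤ ℓ n.length)
    (h : ∀ a ∈ l, a < 2 ^ (ℓ n.length - s.length)) :
    SInv (ℓ n.length) (M n.length) s.tail.length
      (level O W pad M r k f T N n U (s, l)).2 := by
  obtain ⟨u, s', rfl⟩ := List.exists_cons_of_ne_nil hs
  rw [List.length_cons] at hsl h
  have hch : ∀ b ∈ children l, b < 2 ^ (ℓ n.length - s'.length) := by
    intro b hb
    have h1 := h _ (mem_children.mp hb)
    have h2 : ℓ n.length - s'.length = (ℓ n.length - (s'.length + 1)) + 1 := by omega
    rw [h2, pow_succ]
    omega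
  -- nodes of a classification are small
  have hnode : ∀ b, b < 2 ^ (ℓ n.length - s'.length) →
      (cls O W pad r k f T N n s' b U).2.2.2 < 2 ^ (ℓ n.length - s'.length) := by
    intro b hb
    have hpos : 0 < 2 ^ (ℓ n.length - s'.length) := by positivity
    unfold cls
    generalize f (zc n s' b U (List.replicate (pad n.length) ())) = q
    unfold clsQ
    split
    · split
      · rename_i hv
        split
        · rename_i hl
          split
          · rename_i he
            rw [Bool.and_eq_true] at he
            have hck : ∀ j < (wss q).length, (ent (wss q) j).1 = true →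
                W j (ent (wss q) j).2 = true := by
              unfold valid at hv
              rw [Bool.and_eq_true] at hv
              exact checkW_iff.mp hv.2
            have hWn := hck n.length (by simpa using hl) he.1
            simp only
            rw [ushr_eq]
            have h1 := hver.hb _ _ hWn
            apply Nat.div_lt_of_lt_mul
            rw [← pow_add]
            rwa [Nat.add_sub_cancel' (by omega)]
          · exact hb
        · split
          · exact hb
          · exact hpos
      · exact hpos
    · exact hb
  unfold level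
  simp only [List.tail_cons]
  rcases prune_spec (List.replicate (M n.length) ())
    ((children l).map (fun a => cls O W pad r k f T N n s' a U)) with ⟨x, hx, _, h2⟩ | ⟨_, h2⟩
  · rw [h2]
    refine ⟨?_, by simp⟩
    intro a ha
    simp only [List.mem_singleton] at ha
    obtain ⟨b, hb, rfl⟩ := List.mem_map.mp hx
    rw [ha]
    exact hnode b (hch b hb)
  · rw [h2, List.length_replicate]
    constructor
    · intro a ha
      obtain ⟨m, _, ha⟩ := List.mem_flatMap.mp ha
      obtain ⟨x, hx, _, _, h3, _⟩ := (best_spec _ m).1 a ha
      obtain ⟨b, hb, rfl⟩ := List.mem_map.mp hx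
      rw [← h3]
      exact hnode b (hch b hb)
    · rw [List.length_flatMap]
      have : ∀ (L : List ℕ) (R : List Res), (L.map fun m => (best R m).length).sum ≤ L.length := by
        intro L R
        induction L with
        | nil => simp
        | cons a t ih =>
          have := (best_spec R a).2.2
          simp only [List.map_cons, List.sum_cons, List.length_cons]
          omega
      have h3 := this (List.range (M n.length)) ((children l).map (fun a => cls O W pad r k f T N n s' a U))
      rw [List.length_range] at h3
      omega

theorem level_inv (hver : Ver O W ℓ) (hf : ∀ w, ZL W w = CL O W r k (f w))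
    (hM : ColB W ℓ pad M f) (T : List (Bool × ℕ)) (N n : List Unit) (U : ℕ)
    (hU : U ≤ 2 ^ ℓ n.length)
    (hT : ∀ j < n.length, LeastSpec W j (ent T j))
    (hN : ∀ (i : List Unit) (a : ℕ),
      typ (f (zc n i a U (List.replicate (pad n.length) ()))) = true →
      valid W r k (f (zc n i a U (List.replicate (pad n.length) ()))) = true →
      (wss (f (zc n i a U (List.replicate (pad n.length) ())))).length ≤ n.length →
      2 ^ ((xx (f (zc n i a U (List.replicate (pad n.length) ())))).length + 1) ≤ N.length)
    (hex : ∃ v < U, W n.length v = true)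
    (s : List Unit) (l : List ℕ) (hs : s ≠ []) (hsl : s.length ≤ ℓ n.length)
    (h : ∀ a ∈ l, a < 2 ^ (ℓ n.length - s.length))
    (hinv : ∃ a ∈ l, SN W n.length s.length a U) :
    ∃ a ∈ (level O W pad M r k f T N n U (s, l)).2, SN W n.length s.tail.length a U := by
  obtain ⟨u, s', rfl⟩ := List.exists_cons_of_ne_nil hs
  rw [List.length_cons] at hsl h hinv
  have hch : ∀ b ∈ children l, b < 2 ^ (ℓ n.length - s'.length) := by
    intro b hb
    have h1 := h _ (mem_children.mp hb)
    have h2 : ℓ n.length - s'.length = (ℓ n.length - (s'.length + 1)) + 1 := by omega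
    rw [h2, pow_succ]
    omega
  have hspec : ∀ b ∈ children l, ClsSpec W (ℓ n.length) n.length s'.length b U
      (cls O W pad r k f T N n s' b U) := fun b hb =>
    cls_spec hver hf T N n s' b U hT (hN s' b) (by omega) (hch b hb)
  obtain ⟨a, ha, v, hv, hvU, hWv⟩ := hinv
  -- the good child
  set b := v / 2 ^ s'.length with hb
  have hbc : b ∈ children l := by
    rw [mem_children, hb, Nat.div_div_eq_div_mul, ← pow_succ, hv]
    exact ha
  have hSb : SN W n.length s'.length b U := ⟨v, rfl, hvU, hWv⟩
  unfold level
  simp only [List.tail_cons]
  rcases prune_spec (List.replicate (M n.length) ())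
    ((children l).map (fun a => cls O W pad r k f T N n s' a U)) with ⟨x, hx, h1, h2⟩ | ⟨h1, h2⟩
  · rw [h2]
    obtain ⟨c, hc, rfl⟩ := List.mem_map.mp hx
    exact ⟨_, by simp, (hspec c hc).only h1 hex⟩
  · rw [h2, List.length_replicate]
    have hxb : cls O W pad r k f T N n s' b U ∈ (children l).map (fun a => cls O W pad r k f T N n s' a U) :=
      List.mem_map_of_mem hbc
    have hx1 : (cls O W pad r k f T N n s' b U).1 = (true, false) := by
      have g1 := h1 _ hxb
      have g2 := (hspec b hbc).drop
      rcases hcls : cls O W pad r k f T N n s' b U with ⟨⟨p, q⟩, z⟩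
      rw [hcls] at g1 g2
      simp only at g1 g2 ⊢
      cases p
      · exact absurd hSb (g2 rfl)
      · cases q
        · rfl
        · exact absurd rfl g1
    have hcol := cls_col (O := O) (W := W) (r := r) (k := k) hM T N n s' b U (by omega)
      (lt_of_lt_of_le (hch b hbc) (Nat.pow_le_pow_right (by norm_num) (Nat.sub_le _ _))) hU hx1
    obtain ⟨p1, p2, _⟩ := best_spec ((children l).map (fun a => cls O W pad r k f T N n s' a U))
      (cls O W pad r k f T N n s' b U).2.1
    have hne := p2 ⟨_, hxb, rfl, hx1⟩
    obtain ⟨c, t, hct⟩ := List.exists_cons_of_ne_nil hne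
    have hcm : c ∈ best ((children l).map (fun a => cls O W pad r k f T N n s' a U))
      (cls O W pad r k f T N n s' b U).2.1 := by rw [hct]; simp
    obtain ⟨x, hx, e1, e2, e3, e4⟩ := p1 c hcm
    obtain ⟨d, hd, rfl⟩ := List.mem_map.mp hx
    refine ⟨c, List.mem_flatMap.mpr ⟨_, List.mem_range.mpr hcol, hcm⟩, ?_⟩
    obtain ⟨g1, g2⟩ := (hspec d hd).col e2
    rw [← e3, g1, g2, e1]
    obtain ⟨_, g3⟩ := (hspec b hbc).col hx1
    obtain ⟨v', hv', hW'⟩ := g3.mp hSb
    exact ⟨v', lt_of_lt_of_le hv' (e4 _ hxb rfl hx1), hW'⟩

theorem hit_iff {n : List Unit} {U : ℕ} {l : List ℕ} :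
    hit W n U l = true ↔ ∃ a ∈ l, a < U ∧ W n.length a = true := by
  unfold hit
  simp only [List.any_eq_true, Bool.and_eq_true, decide_eq_true_eq]

/-- the sizes during the fold of the levels -/
theorem fold_size (hver : Ver O W ℓ) (T : List (Bool × ℕ)) (N n : List Unit) (U : ℕ) :
    ∀ j i : ℕ, i + j = ℓ n.length →
      ((List.replicate j ()).foldl (fun s _ => level O W pad M r k f T N n U s)
        (List.replicate (ℓ n.length) (), [0])).1 = List.replicate i () ∧
      SInv (ℓ n.length) (M n.length) i
        ((List.replicate j ()).foldl (fun s _ => level O W pad M r k f T N n U s)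
          (List.replicate (ℓ n.length) (), [0])).2 := by
  intro j
  induction j with
  | zero =>
    intro i hi
    simp only [List.replicate_zero, List.foldl_nil]
    have : i = ℓ n.length := by omega
    subst this
    refine ⟨rfl, ?_, by simp⟩
    intro a ha
    simp only [List.mem_singleton] at ha
    rw [ha]
    positivity
  | succ j ih =>
    intro i hi
    obtain ⟨h1, h2⟩ := ih (i + 1) (by omega)
    rw [List.replicate_succ', List.foldl_append]
    simp only [List.foldl_cons, List.foldl_nil]
    generalize (List.replicate j ()).foldl (fun s _ => level O W pad M r k f T N n U s)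
        (List.replicate (ℓ n.length) (), [0]) = s at h1 h2
    obtain ⟨s1, s2⟩ := s
    simp only at h1 h2
    subst h1
    refine ⟨by unfold level; simp [List.replicate_succ], ?_⟩
    have := level_size (M := M) (pad := pad) (r := r) (k := k) (f := f) hver T N n U
      (List.replicate (i + 1) ()) s2 (by simp [List.replicate_succ]) (by simp; omega)
      (by simpa using h2.1)
    simpa using this

theorem search_spec (hver : Ver O W ℓ) (hf : ∀ w, ZL W w = CL O W r k (f w))
    (hM : ColB W ℓ pad M f) (T : List (Bool × ℕ)) (N n : List Unit) (U : ℕ)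
    (hU : U ≤ 2 ^ ℓ n.length)
    (hT : ∀ j < n.length, LeastSpec W j (ent T j))
    (hN : ∀ (i : List Unit) (a : ℕ),
      typ (f (zc n i a U (List.replicate (pad n.length) ()))) = true →
      valid W r k (f (zc n i a U (List.replicate (pad n.length) ()))) = true →
      (wss (f (zc n i a U (List.replicate (pad n.length) ())))).length ≤ n.length →
      2 ^ ((xx (f (zc n i a U (List.replicate (pad n.length) ())))).length + 1) ≤ N.length) :
    search O W ℓ pad M r k f T N n U = true ↔ ∃ v < U, W n.length v = true := by
  unfold search
  rw [hit_iff]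
  refine ⟨fun ⟨a, _, h1, h2⟩ => ⟨a, h1, h2⟩, fun hex => ?_⟩
  have key : ∀ j i : ℕ, i + j = ℓ n.length →
      ∃ a ∈ ((List.replicate j ()).foldl (fun s _ => level O W pad M r k f T N n U s)
        (List.replicate (ℓ n.length) (), [0])).2, SN W n.length i a U := by
    intro j
    induction j with
    | zero =>
      intro i hi
      obtain ⟨v, hvU, hv⟩ := hex
      refine ⟨0, by simp, v, ?_, hvU, hv⟩
      have : i = ℓ n.length := by omega
      rw [this]
      exact Nat.div_eq_of_lt (hver.hb _ _ hv)
    | succ j ih =>
      intro i hi
      obtain ⟨g1, g2⟩ := fold_size (M := M) (pad := pad) (r := r) (k := k) (f := f) hver T N n U j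
        (i + 1) (by omega)
      have g3 := ih (i + 1) (by omega)
      rw [List.replicate_succ', List.foldl_append]
      simp only [List.foldl_cons, List.foldl_nil]
      generalize (List.replicate j ()).foldl (fun s _ => level O W pad M r k f T N n U s)
          (List.replicate (ℓ n.length) (), [0]) = s at g1 g2 g3
      obtain ⟨s1, s2⟩ := s
      simp only at g1 g2 g3
      subst g1
      have := level_inv (M := M) (pad := pad) (r := r) (k := k) (f := f) hver hf hM T N n U hU hT
        hN hex (List.replicate (i + 1) ()) s2 (by simp [List.replicate_succ]) (by simp; omega)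
        (by simpa using g2.1) (by simpa using g3)
      simpa using this
  obtain ⟨a, ha, v, hv, hvU, hWv⟩ := key (ℓ n.length) 0 (by simp)
  rw [pow_zero, Nat.div_one] at hv
  subst hv
  exact ⟨v, ha, hvU, hWv⟩

theorem least_spec (hver : Ver O W ℓ) (hf : ∀ w, ZL W w = CL O W r k (f w))
    (hM : ColB W ℓ pad M f) (T : List (Bool × ℕ)) (N n : List Unit)
    (hT : ∀ j < n.length, LeastSpec W j (ent T j))
    (hN : ∀ (i : List Unit) (a U : ℕ),
      typ (f (zc n i a U (List.replicate (pad n.length) ()))) = true →
      valid W r k (f (zc n i a U (List.replicate (pad n.length) ()))) = true →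
      (wss (f (zc n i a U (List.replicate (pad n.length) ())))).length ≤ n.length →
      2 ^ ((xx (f (zc n i a U (List.replicate (pad n.length) ())))).length + 1) ≤ N.length) :
    LeastSpec W n.length (least O W ℓ pad M r k f T N n) := by
  unfold least
  obtain ⟨h1, h2, _⟩ := gfind_spec (P := fun v => W n.length v = true) (L := ℓ n.length)
    (g := search O W ℓ pad M r k f T N n)
    (fun t ht => search_spec hver hf hM T N n t ht hT (fun i a => hN i a t)) (hver.hb n.length)
  exact ⟨h1, h2⟩

theorem gfind_lt (g : ℕ → Bool) (L : ℕ) : (gfind g (List.replicate L ())).2 < 2 ^ L := by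
  unfold gfind
  have key : ∀ j i : ℕ, i + j = L →
      ((List.replicate j ()).foldl (fun s _ => gstep g s) (List.replicate L (), 0)).1 =
        List.replicate i () ∧
      ((List.replicate j ()).foldl (fun s _ => gstep g s) (List.replicate L (), 0)).2 <
        2 ^ (L - i) := by
    intro j
    induction j with
    | zero =>
      intro i hi
      have : i = L := by omega
      subst this
      simp
    | succ j ih =>
      intro i hi
      obtain ⟨h1, h2⟩ := ih (i + 1) (by omega)
      rw [List.replicate_succ', List.foldl_append]
      simp only [List.foldl_cons, List.foldl_nil]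
      generalize (List.replicate j ()).foldl (fun s _ => gstep g s) (List.replicate L (), 0) = s
        at h1 h2
      obtain ⟨s1, s2⟩ := s
      simp only at h1 h2
      subst h1
      unfold gstep
      refine ⟨by simp [List.replicate_succ], ?_⟩
      simp only
      have h3 : L - i = (L - (i + 1)) + 1 := by omega
      rw [h3, pow_succ]
      split
      · rw [Nat.bit_val]; simp only [Bool.toNat_false]; omega
      · rw [Nat.bit_val]; simp only [Bool.toNat_true]; omega
  split
  · have := (key L 0 (by simp)).2
    simpa using this
  · simp

theorem table_succ (N : List Unit) (n : ℕ) :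
    table O W ℓ pad M r k f N (List.replicate (n + 1) ()) =
      table O W ℓ pad M r k f N (List.replicate n ()) ++
        [least O W ℓ pad M r k f (table O W ℓ pad M r k f N (List.replicate n ())) N
          (ulen (table O W ℓ pad M r k f N (List.replicate n ())))] := by
  unfold table
  rw [List.replicate_succ', List.foldl_append]
  rfl

theorem table_length (N : List Unit) (n : ℕ) :
    (table O W ℓ pad M r k f N (List.replicate n ())).length = n := by
  induction n with
  | zero => rfl
  | succ n ih => rw [table_succ, List.length_append, ih]; rfl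

theorem table_ent (N : List Unit) (n j : ℕ) (hj : j < n) :
    ent (table O W ℓ pad M r k f N (List.replicate n ())) j =
      solve O W ℓ pad M r k f N (List.replicate j ()) := by
  induction n with
  | zero => omega
  | succ n ih =>
    rw [table_succ]
    rcases Nat.lt_succ_iff_lt_or_eq.mp hj with h | h
    · rw [← ih h]
      unfold ent
      rw [List.getD_append _ _ _ _ (by rw [table_length]; exact h)]
    · subst h
      unfold ent
      rw [List.getD_append_right _ _ _ _ (by rw [table_length]), table_length]
      simp only [Nat.sub_self, List.getD_cons_zero]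
      unfold solve
      rw [ulen_eq, table_length]

theorem solve_spec (hver : Ver O W ℓ) (hf : ∀ w, ZL W w = CL O W r k (f w))
    (hM : ColB W ℓ pad M f) (N : List Unit) (n0 : ℕ)
    (hN : ∀ (n : ℕ) (i : List Unit) (a U : ℕ), n ≤ n0 →
      typ (f (zc (List.replicate n ()) i a U (List.replicate (pad n) ()))) = true →
      valid W r k (f (zc (List.replicate n ()) i a U (List.replicate (pad n) ()))) = true →
      (wss (f (zc (List.replicate n ()) i a U (List.replicate (pad n) ())))).length ≤ n →
      2 ^ ((xx (f (zc (List.replicate n ()) i a U (List.replicate (pad n) ())))).length + 1) ≤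
        N.length) :
    ∀ n ≤ n0, LeastSpec W n (solve O W ℓ pad M r k f N (List.replicate n ())) := by
  intro n
  induction n using Nat.strong_induction_on with
  | _ n ih =>
    intro hn
    have := least_spec (M := M) (pad := pad) hver hf hM
      (table O W ℓ pad M r k f N (List.replicate n ())) N (List.replicate n ()) ?_ ?_
    · unfold solve
      simpa using this
    · intro j hj
      rw [List.length_replicate] at hj
      rw [table_ent N n j hj]
      exact ih j hj (by omega)
    · intro i a U
      have := hN n i a U hn
      simpa using this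

end Pool.Agent.CKP
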